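import Mathlib

set_option autoImplicit false

namespace Pool.Agent.H990R4.VJ

open Polynomial Finset

/-- pigeonhole principle for images -/
lemma card_image_le_of_pairs {β : Type*} [DecidableEq β] (A : Finset ℤ) (φ : ℤ → β) (q : ℕ)
    (h : ∀ s ⊆ A, s.card = q + 1 → ∃ i ∈ s, ∃ j ∈ s, i ≠ j ∧ φ i = φ j) :
    (A.image φ).card ≤ q := by
  classical
  by_contra hc
  push Not at hc
  obtain ⟨t, htA, htc⟩ := Finset.exists_subset_card_eq (n := q + 1) hc
  have hpre : ∀ y ∈ t, ∃ a ∈ A, φ a = y := fun y hy => by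
    simpa using Finset.mem_image.1 (htA hy)
  choose! g hgA hg using hpre
  have hinj : Set.InjOn g (t : Set β) := by
    intro y hy z hz hyz
    rw [← hg y hy, ← hg z hz, hyz]
  obtain ⟨i, hi, j, hj, hij, he⟩ := h (t.image g) (by
    intro a ha
    obtain ⟨y, hy, rfl⟩ := Finset.mem_image.1 ha
    exact hgA y hy) (by rw [Finset.card_image_of_injOn hinj, htc])
  obtain ⟨y, hy, rfl⟩ := Finset.mem_image.1 hi
  obtain ⟨z, hz, rfl⟩ := Finset.mem_image.1 hj
  rw [hg y hy, hg z hz] at he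
  exact hij (by rw [he])

lemma exists_fiber {β : Type*} [DecidableEq β] (A : Finset ℤ) (φ : ℤ → β) (q : ℕ)
    (h : (A.image φ).card ≤ q) :
    ∃ A' ⊆ A, A.card ≤ q * A'.card ∧ ∀ i ∈ A', ∀ j ∈ A', φ i = φ j := by
  classical
  rcases A.eq_empty_or_nonempty with rfl | hA
  · exact ⟨∅, by simp, by simp, by simp⟩
  · obtain ⟨y, hy, hmax⟩ := Finset.exists_max_image (A.image φ)
      (fun y => (A.filter (fun a => φ a = y)).card) (hA.image φ)
    refine ⟨A.filter (fun a => φ a = y), Finset.filter_subset _ _, ?_, ?_⟩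
    · have h1 := Finset.card_le_mul_card_image A _ hmax
      calc A.card ≤ (A.filter (fun a => φ a = y)).card * (A.image φ).card := h1
        _ ≤ (A.filter (fun a => φ a = y)).card * q := Nat.mul_le_mul_left _ h
        _ = _ := Nat.mul_comm _ _
    · intro i hi j hj
      rw [Finset.mem_filter] at hi hj
      rw [hi.2, hj.2]

lemma lagrange {F : Type*} [Field F] [CharZero F] (P : ℤ[X]) (q : ℕ) (hP : P.natDegree ≤ q)
    (s : Finset ℤ) (hs : s.card = q + 1) :
    (P.coeff q : F) = ∑ i ∈ s, ((P.eval i : ℤ) : F) / ∏ j ∈ s.erase i, ((i : F) - (j : F)) := by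
  classical
  have h1 : Set.InjOn (fun i : ℤ => (i : F)) s := fun a _ b _ hab => Int.cast_injective hab
  have h2 : (P.map (Int.castRingHom F)).degree < s.card := by
    rw [hs]
    refine lt_of_le_of_lt degree_map_le ?_
    refine lt_of_le_of_lt degree_le_natDegree ?_
    exact_mod_cast Nat.lt_succ_of_le hP
  have := Lagrange.coeff_eq_sum h1 h2
  rw [hs] at this
  simp only [Nat.add_sub_cancel, coeff_map, eq_intCast] at this
  rw [this]
  refine Finset.sum_congr rfl fun i _ => ?_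
  congr 1
  have h3 := eval_intCast_map (Int.castRingHom F) P i
  simpa using h3

/-- the `p`-adic pair lemma -/
lemma padic_pair (p : ℕ) [hp : Fact p.Prime] (P : ℤ[X]) (q : ℕ) (hq : 1 ≤ q)
    (hP : P.natDegree ≤ q) (k m v : ℕ) (hv : ¬ ((p : ℤ) ^ (v + 1) ∣ P.coeff q))
    (hm : ∀ m' < m, v + m' * q < k) (s : Finset ℤ) (hs : s.card = q + 1)
    (hk : ∀ a ∈ s, (p : ℤ) ^ k ∣ P.eval a) :
    ∃ i ∈ s, ∃ j ∈ s, i ≠ j ∧ (p : ℤ) ^ m ∣ i - j := by
  classical
  rcases m with _ | m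
  · obtain ⟨i, hi, j, hj, hij⟩ := Finset.one_lt_card.1 (show 1 < s.card by omega)
    exact ⟨i, hi, j, hj, hij, by simp⟩
  by_contra hc
  push Not at hc
  have hp0 : (0 : ℝ) < p := by exact_mod_cast hp.out.pos
  have hp1 : (1 : ℝ) ≤ p := by exact_mod_cast hp.out.one_lt.le
  have h1 : ∀ i ∈ s, ∀ j ∈ s, i ≠ j → ((p : ℝ) ^ m)⁻¹ ≤ ‖((i : ℚ_[p]) - (j : ℚ_[p]))‖ := by
    intro i hi j hj hij
    have h2 := hc i hi j hj hij
    rw [← Padic.norm_int_le_pow_iff_dvd, Padic.norm_le_pow_iff_norm_lt_pow_add_one,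
      not_lt] at h2
    push_cast at h2
    rw [show (-((m : ℤ) + 1) + 1) = -(m : ℤ) by ring, zpow_neg, zpow_natCast] at h2
    exact h2
  have h2 : ∀ a ∈ s, ‖((P.eval a : ℤ) : ℚ_[p])‖ ≤ ((p : ℝ) ^ k)⁻¹ := by
    intro a ha
    have h3 := (Padic.norm_int_le_pow_iff_dvd (p := p) (P.eval a) k).2
      (by exact_mod_cast hk a ha)
    rw [zpow_neg, zpow_natCast] at h3
    exact h3
  have h3 : ‖((P.coeff q : ℤ) : ℚ_[p])‖ ≤ ((p : ℝ) ^ k)⁻¹ * ((p : ℝ) ^ m) ^ q := by
    rw [lagrange (F := ℚ_[p]) P q hP s hs]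
    refine IsUltrametricDist.norm_sum_le_of_forall_le_of_nonneg (by positivity) fun i hi => ?_
    rw [norm_div, norm_prod, div_eq_mul_inv]
    refine mul_le_mul (h2 i hi) ?_ (by positivity) (by positivity)
    have h4 : (((p : ℝ) ^ m)⁻¹) ^ q ≤ ∏ j ∈ s.erase i, ‖((i : ℚ_[p]) - (j : ℚ_[p]))‖ := by
      have h5 : (s.erase i).card = q := by rw [Finset.card_erase_of_mem hi, hs]; simp
      rw [← h5, ← Finset.prod_const]
      refine Finset.prod_le_prod (fun _ _ => by positivity) fun j hj => ?_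
      rw [Finset.mem_erase] at hj
      exact h1 i hi j hj.2 (Ne.symm hj.1)
    calc (∏ j ∈ s.erase i, ‖((i : ℚ_[p]) - (j : ℚ_[p]))‖)⁻¹ ≤ ((((p : ℝ) ^ m)⁻¹) ^ q)⁻¹ :=
          inv_anti₀ (by positivity) h4
      _ = ((p : ℝ) ^ m) ^ q := by rw [inv_pow, inv_inv]
  have h4 := hm m (Nat.lt_succ_self m)
  apply hv
  rw [← Padic.norm_int_le_pow_iff_dvd]
  refine h3.trans ?_
  rw [zpow_neg, zpow_natCast, ← pow_mul, inv_mul_eq_div, div_le_iff₀ (by positivity),
    inv_mul_eq_div, le_div_iff₀ (by positivity), ← pow_add]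
  exact pow_le_pow_right₀ hp1 (by omega)

/-- the archimedean pair lemma -/
lemma real_pair (P : ℤ[X]) (q : ℕ) (hq : 1 ≤ q) (hP : P.natDegree ≤ q) (s : Finset ℤ)
    (hs : s.card = q + 1) (Z : ℝ) (hZ0 : 0 < Z) (hZ : ∀ a ∈ s, |((P.eval a : ℤ) : ℝ)| ≤ Z) (δ : ℝ)
    (hδ0 : 0 < δ) (hδ : (q + 1) * Z ≤ |(P.coeff q : ℝ)| * δ ^ q) :
    ∃ i ∈ s, ∃ j ∈ s, i ≠ j ∧ |(i : ℝ) - j| ≤ δ := by
  classical
  by_contra hc
  push Not at hc
  have h1 : |(P.coeff q : ℝ)| < (q + 1) * (Z / δ ^ q) := by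
    rw [lagrange (F := ℝ) P q hP s hs]
    refine lt_of_le_of_lt (Finset.abs_sum_le_sum_abs _ _) ?_
    have hne : s.Nonempty := Finset.card_pos.1 (by omega)
    have h2 : ∑ i ∈ s, |((P.eval i : ℤ) : ℝ) / ∏ j ∈ s.erase i, ((i : ℝ) - (j : ℝ))| <
        ∑ _i ∈ s, Z / δ ^ q := by
      refine Finset.sum_lt_sum_of_nonempty hne fun i hi => ?_
      rw [abs_div, Finset.abs_prod]
      have h5 : (s.erase i).card = q := by rw [Finset.card_erase_of_mem hi, hs]; simp
      have h4 : δ ^ q < ∏ j ∈ s.erase i, |(i : ℝ) - (j : ℝ)| := by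
        conv_lhs => rw [← h5]
        rw [← Finset.prod_const]
        refine Finset.prod_lt_prod_of_nonempty (fun _ _ => hδ0) (fun j hj => ?_)
          (Finset.card_pos.1 (by omega))
        rw [Finset.mem_erase] at hj
        exact hc i hi j hj.2 (Ne.symm hj.1)
      calc |((P.eval i : ℤ) : ℝ)| / ∏ j ∈ s.erase i, |(i : ℝ) - (j : ℝ)|
          ≤ Z / ∏ j ∈ s.erase i, |(i : ℝ) - (j : ℝ)| :=
            div_le_div_of_nonneg_right (hZ i hi) (by positivity)
        _ < Z / δ ^ q := div_lt_div_of_pos_left hZ0 (by positivity) h4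
    rw [Finset.sum_const, hs, nsmul_eq_mul] at h2
    push_cast at h2
    exact h2
  have h2 : (q + 1 : ℝ) * (Z / δ ^ q) ≤ |(P.coeff q : ℝ)| := by
    rw [← mul_div_assoc, div_le_iff₀ (by positivity)]
    exact hδ
  linarith

lemma exists_m (q k v : ℕ) (hq : 1 ≤ q) :
    ∃ m, k ≤ v + m * q ∧ ∀ m' < m, v + m' * q < k := by
  classical
  have h : ∃ m, k ≤ v + m * q := ⟨k, by nlinarith⟩
  refine ⟨Nat.find h, Nat.find_spec h, fun m' hm' => ?_⟩
  have := Nat.find_min h hm'
  omega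

/-- reduction to a class modulo a product of prime powers -/
lemma exists_class (q : ℕ) (m : ℕ → ℕ) (S : Finset ℕ) (A : Finset ℤ)
    (h : ∀ p ∈ S, ∀ s ⊆ A, s.card = q + 1 → ∃ i ∈ s, ∃ j ∈ s, i ≠ j ∧ (p : ℤ) ^ m p ∣ i - j) :
    ∃ A' ⊆ A, A.card ≤ q ^ S.card * A'.card ∧
      ∀ i ∈ A', ∀ j ∈ A', ∀ p ∈ S, (p : ℤ) ^ m p ∣ i - j := by
  classical
  induction S using Finset.induction_on with
  | empty => exact ⟨A, Finset.Subset.refl _, by simp, by simp⟩
  | insert p S hpS ih =>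
    obtain ⟨A₁, hA₁, hc₁, h₁⟩ := ih fun p' hp' => h p' (Finset.mem_insert_of_mem hp')
    have h2 : (A₁.image (fun a : ℤ => a % ((p : ℤ) ^ m p))).card ≤ q := by
      refine card_image_le_of_pairs A₁ _ q fun s hs hsc => ?_
      obtain ⟨i, hi, j, hj, hij, hd⟩ := h p (Finset.mem_insert_self _ _) s (hs.trans hA₁) hsc
      exact ⟨i, hi, j, hj, hij, (Int.modEq_iff_dvd.2 hd).symm⟩
    obtain ⟨A₂, hA₂, hc₂, h₂⟩ := exists_fiber A₁ _ q h2
    refine ⟨A₂, hA₂.trans hA₁, ?_, ?_⟩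
    · rw [Finset.card_insert_of_notMem hpS, pow_succ]
      calc A.card ≤ q ^ S.card * A₁.card := hc₁
        _ ≤ q ^ S.card * (q * A₂.card) := Nat.mul_le_mul_left _ hc₂
        _ = _ := by ring
    · intro i hi j hj p' hp'
      rcases Finset.mem_insert.1 hp' with rfl | hp'
      · exact Int.ModEq.dvd (h₂ j hj i hi)
      · exact h₁ i (hA₂ hi) j (hA₂ hj) p' hp'

/-- the main one-dimensional count -/
theorem count1 (q : ℕ) (hq : 1 ≤ q) (S : Finset ℕ) (hS : ∀ p ∈ S, p.Prime) (P : ℤ[X])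
    (hP : P.natDegree ≤ q) (hg : P.coeff q ≠ 0) (κ : ℕ → ℕ) (Y : ℝ) (hY : 0 < Y) (A : Finset ℤ)
    (hA : ∀ a ∈ A, (∀ p ∈ S, (p : ℤ) ^ κ p ∣ P.eval a) ∧
      |((P.eval a : ℤ) : ℝ)| ≤ Y * ∏ p ∈ S, (p : ℝ) ^ κ p) :
    (A.card : ℝ) ≤ (q : ℝ) ^ S.card * (2 * q) * (((q + 1) * Y) ^ (1 / q : ℝ) + 1) := by
  classical
  have hq0 : (0 : ℝ) < q := by exact_mod_cast hq
  set v : ℕ → ℕ := fun p => (P.coeff q).natAbs.factorization p with hv
  choose m hm1 hm2 using fun p => exists_m q (κ p) (v p) hq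
  have hgn : (P.coeff q).natAbs ≠ 0 := Int.natAbs_ne_zero.2 hg
  obtain ⟨A', hA', hcard, hcl⟩ := exists_class q m S A (by
    intro p hp s hs hsc
    haveI : Fact p.Prime := ⟨hS p hp⟩
    refine padic_pair p P q hq hP (κ p) (m p) (v p) ?_ (hm2 p) s hsc fun a ha => (hA a (hs ha)).1 p hp
    intro hd
    rw [← Int.natAbs_dvd_natAbs, Int.natAbs_pow, Int.natAbs_natCast] at hd
    have := ((hS p hp).pow_dvd_iff_le_factorization hgn).1 hd
    simp only [hv] at this
    omega)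
  set M : ℕ := ∏ p ∈ S, p ^ m p with hM
  have hM0 : 0 < M := Finset.prod_pos fun p hp => pow_pos (hS p hp).pos _
  have hMR : (0 : ℝ) < M := by exact_mod_cast hM0
  have hmod : ∀ i ∈ A', ∀ j ∈ A', (M : ℤ) ∣ i - j := by
    intro i hi j hj
    rw [hM]
    push_cast
    refine Finset.prod_dvd_of_coprime ?_ fun p hp => hcl i hi j hj p hp
    intro p hp p' hp' hne
    have := (Nat.coprime_primes (hS p hp) (hS p' hp')).2 hne
    exact (Nat.isCoprime_iff_coprime.2 this).pow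
  -- product inequality
  have hprod : ∏ p ∈ S, (p : ℝ) ^ κ p ≤ |(P.coeff q : ℝ)| * (M : ℝ) ^ q := by
    have h1 : ∏ p ∈ S, p ^ v p ≤ (P.coeff q).natAbs := by
      apply Nat.le_of_dvd (Nat.pos_of_ne_zero hgn)
      have h2 : (∏ p ∈ S, p ^ v p) ∣ (P.coeff q).natAbs := by
        have h5 : (∏ p ∈ S, ((p : ℤ) ^ v p)) ∣ ((P.coeff q).natAbs : ℤ) := by
          refine Finset.prod_dvd_of_coprime ?_ fun p hp => ?_
          · intro p hp p' hp' hne
            have h3 := (Nat.coprime_primes (hS p hp) (hS p' hp')).2 hne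
            exact (Nat.isCoprime_iff_coprime.2 h3).pow
          · exact_mod_cast Nat.ordProj_dvd (P.coeff q).natAbs p
        exact_mod_cast h5
      exact h2
    have h2 : ∏ p ∈ S, p ^ κ p ≤ (∏ p ∈ S, p ^ v p) * M ^ q := by
      rw [hM, ← Finset.prod_pow, ← Finset.prod_mul_distrib]
      refine Finset.prod_le_prod' fun p hp => ?_
      rw [← pow_mul, ← pow_add]
      exact Nat.pow_le_pow_right (hS p hp).pos (hm1 p)
    have h3 : ∏ p ∈ S, p ^ κ p ≤ (P.coeff q).natAbs * M ^ q :=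
      h2.trans (Nat.mul_le_mul_right _ h1)
    have h4 : ((∏ p ∈ S, p ^ κ p : ℕ) : ℝ) ≤ (((P.coeff q).natAbs * M ^ q : ℕ) : ℝ) := by
      exact_mod_cast h3
    push_cast at h4
    rw [Nat.cast_natAbs] at h4
    push_cast at h4
    exact h4
  set w : ℝ := ((q + 1) * Y) ^ (1 / q : ℝ) with hw
  have hw0 : 0 < w := by positivity
  have hwq : w ^ q = (q + 1) * Y := by
    rw [hw, ← Real.rpow_natCast, ← Real.rpow_mul (by positivity), one_div,
      inv_mul_cancel₀ hq0.ne', Real.rpow_one]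
  set L : ℕ := ⌊w⌋₊ + 1 with hL
  have hLw : w < L := by rw [hL]; exact_mod_cast Nat.lt_floor_add_one w
  have hLle : (L : ℝ) ≤ w + 1 := by
    rw [hL]; push_cast
    have := Nat.floor_le hw0.le
    linarith
  have hL0 : 0 < L := Nat.succ_pos _
  set K : ℤ := (M : ℤ) * L with hK
  have hK0 : 0 < K := by positivity
  -- cells of one parity
  have hcell : ∀ e : ℤ, ((A'.filter fun a => a / K % 2 = e).image fun a => a / K).card ≤ q := by
    intro e
    refine card_image_le_of_pairs _ _ q fun s hs hsc => ?_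
    obtain ⟨i, hi, j, hj, hij, hd⟩ := real_pair P q hq hP s hsc
      (Y * ∏ p ∈ S, (p : ℝ) ^ κ p) (mul_pos hY (Finset.prod_pos fun p hp =>
        pow_pos (by exact_mod_cast (hS p hp).pos) _))
      (fun a ha => (hA a (hA' (Finset.mem_of_mem_filter a (hs ha)))).2) (w * M) (by positivity) (by
        rw [mul_pow, hwq]
        have := mul_le_mul_of_nonneg_left hprod (show (0 : ℝ) ≤ (q + 1) * Y by positivity)
        nlinarith [this])
    refine ⟨i, hi, j, hj, hij, ?_⟩
    have hi2 := (Finset.mem_filter.1 (hs hi)).2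
    have hj2 := (Finset.mem_filter.1 (hs hj)).2
    have hlt : |(i : ℝ) - j| < (K : ℝ) := by
      refine lt_of_le_of_lt hd ?_
      rw [hK]; push_cast
      nlinarith
    have hlt' : |i - j| < K := by exact_mod_cast hlt
    rw [abs_lt] at hlt'
    have e1 := Int.emod_add_mul_ediv i K
    have e2 := Int.emod_add_mul_ediv j K
    have b1 := Int.emod_nonneg i hK0.ne'
    have b2 := Int.emod_nonneg j hK0.ne'
    have b3 := Int.emod_lt_of_pos i hK0
    have b4 := Int.emod_lt_of_pos j hK0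
    by_contra hne
    rcases lt_or_gt_of_ne hne with h | h
    · have h5 : i / K + 2 ≤ j / K := by omega
      have h6 : K * (i / K + 2) ≤ K * (j / K) := mul_le_mul_of_nonneg_left h5 hK0.le
      nlinarith
    · have h5 : j / K + 2 ≤ i / K := by omega
      have h6 : K * (j / K + 2) ≤ K * (i / K) := mul_le_mul_of_nonneg_left h5 hK0.le
      nlinarith
  have himg : (A'.image fun a => a / K).card ≤ 2 * q := by
    have h1 : (A'.image fun a => a / K) ⊆
        ((A'.filter fun a => a / K % 2 = 0).image fun a => a / K) ∪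
        ((A'.filter fun a => a / K % 2 = 1).image fun a => a / K) := by
      intro y hy
      obtain ⟨a, ha, rfl⟩ := Finset.mem_image.1 hy
      rw [Finset.mem_union]
      rcases Int.emod_two_eq (a / K) with h | h
      · left; exact Finset.mem_image_of_mem _ (Finset.mem_filter.2 ⟨ha, h⟩)
      · right; exact Finset.mem_image_of_mem _ (Finset.mem_filter.2 ⟨ha, h⟩)
    refine (Finset.card_le_card h1).trans ((Finset.card_union_le _ _).trans ?_)
    have := hcell 0
    have := hcell 1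
    omega
  have hfib : ∀ y ∈ A'.image (fun a => a / K), (A'.filter fun a => a / K = y).card ≤ L := by
    intro y _
    have h1 : ((A'.filter fun a => a / K = y).image fun a => a / (M : ℤ)) ⊆
        Finset.Ico (y * L) (y * L + L) := by
      intro z hz
      obtain ⟨a, ha, rfl⟩ := Finset.mem_image.1 hz
      rw [Finset.mem_filter] at ha
      have h2 : a / (M : ℤ) / (L : ℤ) = y := by
        rw [Int.ediv_ediv_of_nonneg (by positivity)]
        exact ha.2
      have hLz : (0 : ℤ) < L := by exact_mod_cast hL0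
      rw [Finset.mem_Ico]
      have e1 := Int.emod_add_mul_ediv (a / (M : ℤ)) (L : ℤ)
      have b1 := Int.emod_nonneg (a / (M : ℤ)) hLz.ne'
      have b3 := Int.emod_lt_of_pos (a / (M : ℤ)) hLz
      rw [h2] at e1
      constructor <;> nlinarith
    have h2 : Set.InjOn (fun a : ℤ => a / (M : ℤ)) ((A'.filter fun a => a / K = y) : Set ℤ) := by
      intro a ha b hb hab
      have ha' := (Finset.mem_filter.1 (Finset.mem_coe.1 ha)).1
      have hb' := (Finset.mem_filter.1 (Finset.mem_coe.1 hb)).1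
      have hd := hmod a ha' b hb'
      have hmo : a % (M : ℤ) = b % (M : ℤ) := (Int.modEq_iff_dvd.2 hd).symm
      have e1 := Int.emod_add_mul_ediv a (M : ℤ)
      have e2 := Int.emod_add_mul_ediv b (M : ℤ)
      have hab' : a / (M : ℤ) = b / (M : ℤ) := hab
      rw [← e1, ← e2, hmo, hab']
    rw [← Finset.card_image_of_injOn h2]
    refine (Finset.card_le_card h1).trans ?_
    rw [Int.card_Ico]
    simp
  have hA'c : A'.card ≤ L * (2 * q) :=
    (Finset.card_le_mul_card_image A' L hfib).trans (Nat.mul_le_mul_left _ himg)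
  have hfin : A.card ≤ q ^ S.card * (L * (2 * q)) := hcard.trans (Nat.mul_le_mul_left _ hA'c)
  have hfin' : (A.card : ℝ) ≤ (q : ℝ) ^ S.card * (L * (2 * q)) := by exact_mod_cast hfin
  refine hfin'.trans ?_
  calc (q : ℝ) ^ S.card * (L * (2 * q)) ≤ (q : ℝ) ^ S.card * ((w + 1) * (2 * q)) := by gcongr
    _ = _ := by ring

end Pool.Agent.H990R4.VJ
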