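import Mathlib

set_option autoImplicit false

namespace Pool.Agent.H990R4.VJ

open Polynomial Finset

lemma coeff_prod_sum {ι R : Type*} [CommRing R] (s : Finset ι) (f : ι → R[X]) (d : ι → ℕ)
    (h : ∀ i ∈ s, (f i).natDegree ≤ d i) :
    (∏ i ∈ s, f i).natDegree ≤ ∑ i ∈ s, d i ∧
      (∏ i ∈ s, f i).coeff (∑ i ∈ s, d i) = ∏ i ∈ s, (f i).coeff (d i) := by
  classical
  induction s using Finset.induction_on with
  | empty => simp
  | insert a s ha ih =>
    obtain ⟨h1, h2⟩ := ih fun i hi => h i (Finset.mem_insert_of_mem hi)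
    have h3 := h a (Finset.mem_insert_self _ _)
    rw [Finset.prod_insert ha, Finset.sum_insert ha, Finset.prod_insert ha]
    refine ⟨natDegree_mul_le.trans (add_le_add h3 h1), ?_⟩
    rw [coeff_mul_add_eq_of_natDegree_le h3 h1, h2]

lemma det_coeff {n R : Type*} [Fintype n] [DecidableEq n] [CommRing R] (M : Matrix n n R[X])
    (d : n → ℕ) (h : ∀ i j, (M i j).natDegree ≤ d j) :
    M.det.natDegree ≤ ∑ j, d j ∧
      M.det.coeff (∑ j, d j) = (Matrix.of fun i j => (M i j).coeff (d j)).det := by
  have key := fun σ : Equiv.Perm n => coeff_prod_sum Finset.univ (fun j => M (σ j) j) d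
    fun j _ => h (σ j) j
  rw [Matrix.det_apply, Matrix.det_apply]
  constructor
  · refine natDegree_sum_le_of_forall_le _ _ fun σ _ => ?_
    refine (natDegree_smul_le _ _).trans (key σ).1
  · rw [finsetSum_coeff]
    refine Finset.sum_congr rfl fun σ _ => ?_
    rw [coeff_smul, (key σ).2]
    rfl

/-- The resultant as a polynomial in the parameter of a line of polynomials. -/
noncomputable def RP (f₀ E G : ℤ[X]) (r q : ℕ) : ℤ[X] :=
  resultant (f₀.map (C : ℤ →+* ℤ[X]) + C X * E.map (C : ℤ →+* ℤ[X])) (G.map (C : ℤ →+* ℤ[X])) r q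

lemma RP_eval (f₀ E G : ℤ[X]) (r q : ℕ) (a : ℤ) :
    (RP f₀ E G r q).eval a = resultant (f₀ + C a * E) G r q := by
  have h1 : (evalRingHom a).comp (C : ℤ →+* ℤ[X]) = RingHom.id ℤ := by
    ext; simp
  have h := resultant_map_map (f₀.map (C : ℤ →+* ℤ[X]) + C X * E.map (C : ℤ →+* ℤ[X]))
    (G.map (C : ℤ →+* ℤ[X])) r q (evalRingHom a)
  have h2 : ∀ F : ℤ[X], (F.map (C : ℤ →+* ℤ[X])).map (evalRingHom a) = F := by
    intro F
    rw [Polynomial.map_map, h1, Polynomial.map_id]
  have h3 : (f₀.map (C : ℤ →+* ℤ[X]) + C X * E.map (C : ℤ →+* ℤ[X])).map (evalRingHom a) =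
      f₀ + C a * E := by
    rw [Polynomial.map_add, Polynomial.map_mul, h2, h2, map_C]
    simp
  rw [h3, h2] at h
  exact h.symm

lemma RP_coeff (f₀ E G : ℤ[X]) (r q : ℕ) :
    (RP f₀ E G r q).natDegree ≤ q ∧ (RP f₀ E G r q).coeff q = resultant E G r q := by
  set d : Fin (r + q) → ℕ := fun j => j.addCases (fun _ : Fin r => 0) (fun _ : Fin q => 1) with hd
  have hsum : ∑ j, d j = q := by
    rw [Fin.sum_univ_add]
    simp [hd]
  have h := det_coeff (sylvester (f₀.map (C : ℤ →+* ℤ[X]) + C X * E.map (C : ℤ →+* ℤ[X]))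
    (G.map (C : ℤ →+* ℤ[X])) r q) d (by
      intro i j
      induction j using Fin.addCases with
      | left j =>
        simp only [sylvester, Matrix.of_apply, Fin.addCases_left, hd]
        split_ifs
        · rw [coeff_map, natDegree_C]
        · simp
      | right j =>
        simp only [sylvester, Matrix.of_apply, Fin.addCases_right, hd]
        split_ifs
        · rw [coeff_add, coeff_map, coeff_C_mul, coeff_map]
          refine (natDegree_add_le _ _).trans (max_le ?_ ?_)
          · rw [natDegree_C]; omega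
          · refine natDegree_mul_le.trans ?_
            rw [natDegree_C, natDegree_X]
        · simp)
  rw [hsum] at h
  refine ⟨h.1, ?_⟩
  rw [RP, resultant, h.2, resultant]
  congr 1
  ext i j
  induction j using Fin.addCases with
  | left j =>
    simp only [sylvester, Matrix.of_apply, Fin.addCases_left, hd]
    split_ifs
    · rw [coeff_map, coeff_C_zero]
    · simp
  | right j =>
    simp only [sylvester, Matrix.of_apply, Fin.addCases_right, hd]
    split_ifs
    · rw [coeff_add, coeff_map, coeff_C_mul, coeff_map, coeff_add, coeff_C_succ, coeff_mul_C,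
        coeff_X_one]
      simp
    · simp

end Pool.Agent.H990R4.VJ
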