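import Mathlib
import Pool.Agent.H990R4.VJ.A
import Pool.Agent.H990R4.VJ.B

set_option autoImplicit false

namespace Pool.Agent.H990R4.VJ

open Polynomial Finset

/-- the count of binary forms with a small prime-to-`S` part of the resultant with `G` -/
theorem count2 (r q : ℕ) (hq : 1 ≤ q) (G : ℤ[X]) (hGq : G.natDegree ≤ q) (c₀ : ℤ)
    (hc₀ : G.eval c₀ ≠ 0) (S : Finset ℕ) (hS : ∀ p ∈ S, p.Prime) :
    ∃ W : ℕ, ∀ (N K : ℕ) (Y : ℝ), 0 < Y → ∀ Es : Finset ℤ[X],
      (∀ f ∈ Es, f.natDegree ≤ r ∧ (∀ i, |f.coeff i| ≤ (N : ℤ)) ∧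
        (∀ p ∈ S, padicValInt p (resultant f G r q) ≤ K) ∧
        |((resultant f G r q : ℤ) : ℝ)| ≤
          Y * ∏ p ∈ S, (p : ℝ) ^ padicValInt p (resultant f G r q)) →
      (Es.card : ℝ) ≤ ((q : ℝ) ^ S.card * (2 * q) * (((q + 1) * Y) ^ (1 / q : ℝ) + 1)) *
        ((2 * (W * N) + 1) ^ r * (K + 1) ^ S.card) := by
  classical
  set E : ℤ[X] := (X - C c₀) ^ r with hE
  have hEm : E.Monic := (monic_X_sub_C c₀).pow r
  have hEd : E.natDegree = r := by
    rw [hE, natDegree_pow, natDegree_X_sub_C, mul_one]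
  have hEr : E.coeff r = 1 := by
    have := hEm.coeff_natDegree
    rwa [hEd] at this
  have hER : resultant E G r q = (G.eval c₀) ^ r := resultant_X_sub_C_pow_left c₀ G r q hGq
  refine ⟨1 + ∑ i ∈ range r, (E.coeff i).natAbs, fun N K Y hY Es hEs => ?_⟩
  set W : ℕ := 1 + ∑ i ∈ range r, (E.coeff i).natAbs with hW
  set b : ℝ := (q : ℝ) ^ S.card * (2 * q) * (((q + 1) * Y) ^ (1 / q : ℝ) + 1) with hb
  have hb0 : 0 ≤ b := by positivity
  set Φ : ℤ[X] → (Fin r → ℤ) × (S → ℕ) := fun f =>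
    (fun i => f.coeff i - f.coeff r * E.coeff i, fun p => padicValInt p (resultant f G r q)) with hΦ
  have himg : Es.image Φ ⊆ (Fintype.piFinset fun _ : Fin r => Finset.Icc (-((W * N : ℕ) : ℤ))
      ((W * N : ℕ) : ℤ)) ×ˢ (Fintype.piFinset fun _ : S => Finset.range (K + 1)) := by
    intro y hy
    obtain ⟨f, hf, rfl⟩ := Finset.mem_image.1 hy
    obtain ⟨h1, h2, h3, h4⟩ := hEs f hf
    rw [Finset.mem_product, Fintype.mem_piFinset, Fintype.mem_piFinset]
    refine ⟨fun i => ?_, fun p => ?_⟩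
    · rw [Finset.mem_Icc, ← abs_le]
      show |f.coeff i - f.coeff r * E.coeff i| ≤ _
      have h5 : (E.coeff i).natAbs ≤ ∑ i ∈ range r, (E.coeff i).natAbs :=
        Finset.single_le_sum (f := fun i => (E.coeff i).natAbs) (fun _ _ => Nat.zero_le _)
          (Finset.mem_range.2 i.2)
      have h6 : |E.coeff i| ≤ ((∑ i ∈ range r, (E.coeff i).natAbs : ℕ) : ℤ) := by
        rw [Int.abs_eq_natAbs]; exact_mod_cast h5
      have h7 : |f.coeff r * E.coeff i| ≤ (N : ℤ) * ((∑ i ∈ range r, (E.coeff i).natAbs : ℕ) : ℤ) := by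
        rw [abs_mul]
        exact mul_le_mul (h2 r) h6 (abs_nonneg _) (by positivity)
      have h8 := abs_sub (f.coeff i) (f.coeff r * E.coeff i)
      have h9 := h2 i
      rw [hW]
      push_cast at h7 ⊢
      nlinarith
    · rw [Finset.mem_range]
      exact Nat.lt_succ_of_le (h3 p.1 p.2)
  have hcimg : (Es.image Φ).card ≤ (2 * (W * N) + 1) ^ r * (K + 1) ^ S.card := by
    refine (Finset.card_le_card himg).trans ?_
    rw [Finset.card_product, Fintype.card_piFinset, Fintype.card_piFinset, Finset.prod_const,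
      Finset.prod_const, Finset.card_univ, Finset.card_univ, Fintype.card_fin, Int.card_Icc,
      Finset.card_range, Fintype.card_coe]
    apply Nat.mul_le_mul_right
    apply Nat.pow_le_pow_left
    omega
  have hfib : ∀ y ∈ Es.image Φ, (Es.filter fun f => Φ f = y).card ≤ ⌊b⌋₊ := by
    intro y hy
    obtain ⟨g, hg, rfl⟩ := Finset.mem_image.1 hy
    apply Nat.le_floor
    set f₀ : ℤ[X] := g - C (g.coeff r) * E with hf₀
    have hform : ∀ f ∈ Es.filter (fun f => Φ f = Φ g), f = f₀ + C (f.coeff r) * E := by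
      intro f hf
      rw [Finset.mem_filter] at hf
      obtain ⟨hf1, hf2⟩ := hf
      have hfd := (hEs f hf1).1
      have hgd := (hEs g hg).1
      ext i
      rw [hf₀, coeff_add, coeff_sub, coeff_C_mul, coeff_C_mul]
      rcases lt_trichotomy i r with hi | hi | hi
      · have := congrFun (congrArg Prod.fst hf2) ⟨i, hi⟩
        simp only [hΦ] at this
        linarith
      · subst hi
        rw [hEr]; ring
      · rw [coeff_eq_zero_of_natDegree_lt (lt_of_le_of_lt hfd hi),
          coeff_eq_zero_of_natDegree_lt (lt_of_le_of_lt hgd hi),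
          coeff_eq_zero_of_natDegree_lt (lt_of_le_of_lt hEd.le hi)]
        ring
    have hinj : Set.InjOn (fun f : ℤ[X] => f.coeff r) ((Es.filter fun f => Φ f = Φ g) : Set ℤ[X]) := by
      intro f hf f' hf' hff
      have e1 := hform f (Finset.mem_coe.1 hf)
      have e2 := hform f' (Finset.mem_coe.1 hf')
      have e3 : f.coeff r = f'.coeff r := hff
      rw [e1, e2, e3]
    rw [← Finset.card_image_of_injOn hinj]
    obtain ⟨hP1, hP2⟩ := RP_coeff f₀ E G r q
    refine count1 q hq S hS (RP f₀ E G r q) hP1 ?_ (fun p => padicValInt p (resultant g G r q)) Y hY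
      _ ?_
    · rw [hP2, hER]
      exact pow_ne_zero _ hc₀
    · intro a ha
      obtain ⟨f, hf, rfl⟩ := Finset.mem_image.1 ha
      have e1 := hform f hf
      have e2 : (RP f₀ E G r q).eval (f.coeff r) = resultant f G r q := by
        rw [RP_eval, ← e1]
      rw [Finset.mem_filter] at hf
      obtain ⟨hf1, hf2⟩ := hf
      have e3 : ∀ p ∈ S, padicValInt p (resultant f G r q) = padicValInt p (resultant g G r q) := by
        intro p hp
        exact congrFun (congrArg Prod.snd hf2) ⟨p, hp⟩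
      show (∀ p ∈ S, _ ∣ (RP f₀ E G r q).eval (f.coeff r)) ∧
        |(((RP f₀ E G r q).eval (f.coeff r) : ℤ) : ℝ)| ≤ _
      rw [e2]
      refine ⟨fun p hp => ?_, ?_⟩
      · have : Fact p.Prime := ⟨hS p hp⟩
        rw [← e3 p hp]
        exact padicValInt_dvd _
      · refine (hEs f hf1).2.2.2.trans (le_of_eq ?_)
        congr 1
        exact Finset.prod_congr rfl fun p hp => by rw [e3 p hp]
  have h1 := Finset.card_le_mul_card_image Es ⌊b⌋₊ hfib
  have h2 : (Es.card : ℝ) ≤ (⌊b⌋₊ : ℝ) * ((Es.image Φ).card : ℝ) := by exact_mod_cast h1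
  have h3 : ((Es.image Φ).card : ℝ) ≤ (2 * (W * N) + 1) ^ r * (K + 1) ^ S.card := by
    exact_mod_cast hcimg
  refine h2.trans ?_
  exact mul_le_mul (Nat.floor_le hb0) h3 (by positivity) hb0

end Pool.Agent.H990R4.VJ
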