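import Mathlib
import Pool.Agent.H990R4.VJ.C

set_option autoImplicit false

namespace Pool.Agent.H990R4.VJ

open Polynomial Finset

/-- The Mahler measure of an integer polynomial. -/
noncomputable def mm (f : ℤ[X]) : ℝ := (f.map (Int.castRingHom ℂ)).mahlerMeasure

lemma one_le_mm {f : ℤ[X]} (hf : f ≠ 0) : 1 ≤ mm f := one_le_mahlerMeasure_of_ne_zero hf

lemma coeff_le (f : ℤ[X]) (j : ℕ) : (|f.coeff j| : ℝ) ≤ 2 ^ f.natDegree * mm f := by
  have h1 := norm_coeff_le_choose_mul_mahlerMeasure j (f.map (Int.castRingHom ℂ))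
  rw [coeff_map, natDegree_map_eq_of_injective (RingHom.injective_int _)] at h1
  have h2 : ‖(Int.castRingHom ℂ) (f.coeff j)‖ = (|f.coeff j| : ℝ) := by
    simp
  rw [h2] at h1
  refine h1.trans ?_
  refine mul_le_mul_of_nonneg_right ?_ (mahlerMeasure_nonneg _)
  exact_mod_cast Nat.choose_le_two_pow _ _

/-- the resultant through the complex roots -/
lemma res_eq (f G : ℤ[X]) (q : ℕ) (hGq : G.natDegree ≤ q) :
    ((resultant f G f.natDegree q : ℤ) : ℂ) = (f.leadingCoeff : ℂ) ^ q *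
      ((f.map (Int.castRingHom ℂ)).roots.map fun z => (G.map (Int.castRingHom ℂ)).eval z).prod := by
  have h := resultant_eq_prod_eval (f.map (Int.castRingHom ℂ)) (G.map (Int.castRingHom ℂ)) q
    (natDegree_map_le.trans hGq) (IsAlgClosed.splits _)
  rw [resultant_map_map, natDegree_map_eq_of_injective (RingHom.injective_int _),
    leadingCoeff_map_of_injective (RingHom.injective_int _)] at h
  simpa using h

lemma mm_eq (f : ℤ[X]) : mm f = |(f.leadingCoeff : ℝ)| *
    ((f.map (Int.castRingHom ℂ)).roots.map fun z => max 1 ‖z‖).prod := by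
  rw [mm, mahlerMeasure_eq_leadingCoeff_mul_prod_roots,
    leadingCoeff_map_of_injective (RingHom.injective_int _)]
  simp

lemma norm_eval_le (G : ℤ[X]) (q : ℕ) (hGq : G.natDegree ≤ q) (z : ℂ) :
    ‖(G.map (Int.castRingHom ℂ)).eval z‖ ≤
      (1 + ∑ i ∈ range (q + 1), |(G.coeff i : ℝ)|) * max 1 ‖z‖ ^ q := by
  rw [eval_eq_sum_range' (n := q + 1) (lt_of_le_of_lt natDegree_map_le (Nat.lt_succ_of_le hGq)),
    add_mul, one_mul, Finset.sum_mul]
  refine (norm_sum_le _ _).trans ?_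
  have h1 : (1 : ℝ) ≤ max 1 ‖z‖ := le_max_left _ _
  have h2 : ∑ i ∈ range (q + 1), ‖(G.map (Int.castRingHom ℂ)).coeff i * z ^ i‖ ≤
      ∑ i ∈ range (q + 1), |(G.coeff i : ℝ)| * max 1 ‖z‖ ^ q := by
    refine Finset.sum_le_sum fun i hi => ?_
    rw [norm_mul, norm_pow, coeff_map]
    have h3 : ‖(Int.castRingHom ℂ) (G.coeff i)‖ = |(G.coeff i : ℝ)| := by simp
    rw [h3]
    refine mul_le_mul_of_nonneg_left ?_ (abs_nonneg _)
    calc ‖z‖ ^ i ≤ max 1 ‖z‖ ^ i := pow_le_pow_left₀ (norm_nonneg _) (le_max_right _ _) _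
      _ ≤ max 1 ‖z‖ ^ q := pow_le_pow_right₀ h1 (by rw [Finset.mem_range] at hi; omega)
  have h3 : 0 ≤ max 1 ‖z‖ ^ q := by positivity
  linarith

lemma abs_res_le (f G : ℤ[X]) (q : ℕ) (hGq : G.natDegree ≤ q) :
    |((resultant f G f.natDegree q : ℤ) : ℝ)| ≤
      (1 + ∑ i ∈ range (q + 1), |(G.coeff i : ℝ)|) ^ f.natDegree * mm f ^ q := by
  have h := congrArg norm (res_eq f G q hGq)
  rw [Complex.norm_intCast, norm_mul, norm_pow, Complex.norm_intCast] at h
  rw [h, mm_eq, mul_pow]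
  have h1 : ‖((f.map (Int.castRingHom ℂ)).roots.map fun z =>
      (G.map (Int.castRingHom ℂ)).eval z).prod‖ =
      ((f.map (Int.castRingHom ℂ)).roots.map fun z =>
      ‖(G.map (Int.castRingHom ℂ)).eval z‖).prod := by
    have h5 := map_multiset_prod (normHom : ℂ →*₀ ℝ) ((f.map (Int.castRingHom ℂ)).roots.map fun z =>
      (G.map (Int.castRingHom ℂ)).eval z)
    rw [Multiset.map_map] at h5
    exact h5
  rw [h1]
  have h2 : ((f.map (Int.castRingHom ℂ)).roots.map fun z =>
      ‖(G.map (Int.castRingHom ℂ)).eval z‖).prod ≤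
      ((f.map (Int.castRingHom ℂ)).roots.map fun z =>
      (1 + ∑ i ∈ range (q + 1), |(G.coeff i : ℝ)|) * max 1 ‖z‖ ^ q).prod :=
    Multiset.prod_map_le_prod_map₀ _ _ (fun z _ => norm_nonneg _)
      (fun z _ => norm_eval_le G q hGq z)
  rw [Multiset.prod_map_mul, Multiset.map_const', Multiset.prod_replicate, Multiset.prod_map_pow]
    at h2
  have h3 : (f.map (Int.castRingHom ℂ)).roots.card = f.natDegree := by
    rw [← (IsAlgClosed.splits (f.map (Int.castRingHom ℂ))).natDegree_eq_card_roots,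
      natDegree_map_eq_of_injective (RingHom.injective_int _)]
  rw [h3] at h2
  calc |(f.leadingCoeff : ℝ)| ^ q * ((f.map (Int.castRingHom ℂ)).roots.map fun z =>
      ‖(G.map (Int.castRingHom ℂ)).eval z‖).prod ≤ |(f.leadingCoeff : ℝ)| ^ q *
      ((1 + ∑ i ∈ range (q + 1), |(G.coeff i : ℝ)|) ^ f.natDegree *
        ((f.map (Int.castRingHom ℂ)).roots.map fun z => max 1 ‖z‖).prod ^ q) :=
        mul_le_mul_of_nonneg_left h2 (by positivity)
    _ = _ := by ring

/-- the local form: sum of the archimedean local heights over the conjugates -/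
lemma sum_log_eq (f G : ℤ[X]) (q : ℕ) (hGq : G.natDegree ≤ q) (hf : f ≠ 0)
    (hR : resultant f G f.natDegree q ≠ 0) :
    ((f.map (Int.castRingHom ℂ)).roots.map fun z =>
      Real.log (max 1 ‖z‖ ^ q / ‖(G.map (Int.castRingHom ℂ)).eval z‖)).sum =
      q * Real.log (mm f) - Real.log |((resultant f G f.natDegree q : ℤ) : ℝ)| := by
  have h := congrArg norm (res_eq f G q hGq)
  rw [Complex.norm_intCast, norm_mul, norm_pow, Complex.norm_intCast] at h
  have h1 : ‖((f.map (Int.castRingHom ℂ)).roots.map fun z =>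
      (G.map (Int.castRingHom ℂ)).eval z).prod‖ =
      ((f.map (Int.castRingHom ℂ)).roots.map fun z =>
      ‖(G.map (Int.castRingHom ℂ)).eval z‖).prod := by
    have h5 := map_multiset_prod (normHom : ℂ →*₀ ℝ) ((f.map (Int.castRingHom ℂ)).roots.map fun z =>
      (G.map (Int.castRingHom ℂ)).eval z)
    rw [Multiset.map_map] at h5
    exact h5
  rw [h1] at h
  have hl : (0 : ℝ) < |(f.leadingCoeff : ℝ)| :=
    abs_pos.2 (by exact_mod_cast leadingCoeff_ne_zero.2 hf)
  have hRR : |((resultant f G f.natDegree q : ℤ) : ℝ)| ≠ 0 :=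
    (abs_pos.2 (by exact_mod_cast hR)).ne'
  have hG0 : ∀ z ∈ (f.map (Int.castRingHom ℂ)).roots,
      ‖(G.map (Int.castRingHom ℂ)).eval z‖ ≠ 0 := by
    intro z hz h0
    apply hRR
    rw [h]
    have : ((f.map (Int.castRingHom ℂ)).roots.map fun z =>
      ‖(G.map (Int.castRingHom ℂ)).eval z‖).prod = 0 :=
      Multiset.prod_eq_zero (Multiset.mem_map.2 ⟨z, hz, h0⟩)
    rw [this, mul_zero]
  have hm0 : ∀ z : ℂ, max 1 ‖z‖ ≠ 0 := fun z => (lt_of_lt_of_le one_pos (le_max_left _ _)).ne'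
  have e1 : ((f.map (Int.castRingHom ℂ)).roots.map fun z =>
      Real.log (max 1 ‖z‖ ^ q / ‖(G.map (Int.castRingHom ℂ)).eval z‖)).sum =
      q * ((f.map (Int.castRingHom ℂ)).roots.map fun z => Real.log (max 1 ‖z‖)).sum -
      ((f.map (Int.castRingHom ℂ)).roots.map fun z =>
        Real.log ‖(G.map (Int.castRingHom ℂ)).eval z‖).sum := by
    rw [← Multiset.sum_map_mul_left, ← Multiset.sum_map_sub]
    refine congrArg _ (Multiset.map_congr rfl fun z hz => ?_)
    rw [Real.log_div (pow_ne_zero _ (hm0 z)) (hG0 z hz), Real.log_pow]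
  have e2 : Real.log (((f.map (Int.castRingHom ℂ)).roots.map fun z => max 1 ‖z‖).prod) =
      ((f.map (Int.castRingHom ℂ)).roots.map fun z => Real.log (max 1 ‖z‖)).sum := by
    rw [Real.log_multiset_prod, Multiset.map_map]
    · rfl
    · intro x hx h0
      obtain ⟨z, _, hz⟩ := Multiset.mem_map.1 hx
      exact hm0 z (hz.trans h0)
  have e3 : Real.log (((f.map (Int.castRingHom ℂ)).roots.map fun z =>
      ‖(G.map (Int.castRingHom ℂ)).eval z‖).prod) =
      ((f.map (Int.castRingHom ℂ)).roots.map fun z =>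
        Real.log ‖(G.map (Int.castRingHom ℂ)).eval z‖).sum := by
    rw [Real.log_multiset_prod, Multiset.map_map]
    · rfl
    · intro x hx h0
      obtain ⟨z, hz, hz0⟩ := Multiset.mem_map.1 hx
      exact hG0 z hz (hz0.trans h0)
  have hp1 : ((f.map (Int.castRingHom ℂ)).roots.map fun z => max 1 ‖z‖).prod ≠ 0 := by
    apply Multiset.prod_ne_zero
    intro h0
    obtain ⟨z, _, hz⟩ := Multiset.mem_map.1 h0
    exact hm0 z hz
  have hp2 : ((f.map (Int.castRingHom ℂ)).roots.map fun z =>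
      ‖(G.map (Int.castRingHom ℂ)).eval z‖).prod ≠ 0 := by
    apply Multiset.prod_ne_zero
    intro h0
    obtain ⟨z, hz, hz0⟩ := Multiset.mem_map.1 h0
    exact hG0 z hz hz0
  rw [e1, ← e2, ← e3, h, mm_eq, Real.log_mul (by positivity) hp2, Real.log_mul hl.ne' hp1,
    Real.log_pow]
  ring

end Pool.Agent.H990R4.VJ
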