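import Mathlib
import Pool.Agent.H990R4.VJ.D

set_option autoImplicit false

namespace Pool.Agent.H990R4.VJ

open Polynomial Finset

lemma exists_eval_ne_zero (G : ℤ[X]) (hG : G ≠ 0) : ∃ c₀ : ℤ, G.eval c₀ ≠ 0 := by
  by_contra h
  push Not at h
  exact hG (Polynomial.funext fun c => by rw [h c, eval_zero])

lemma padic_le (p : ℕ) (hp : p.Prime) (n : ℤ) (hn : n ≠ 0) :
    (padicValInt p n : ℝ) ≤ 2 * Real.log |(n : ℝ)| := by
  have : Fact p.Prime := ⟨hp⟩
  have h1 : (p : ℤ) ^ padicValInt p n ∣ n := padicValInt_dvd n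
  have h2 : (p : ℤ) ^ padicValInt p n ≤ |n| := Int.le_of_dvd (abs_pos.2 hn) ((dvd_abs _ _).2 h1)
  have h3 : (2 : ℝ) ^ padicValInt p n ≤ |(n : ℝ)| := by
    have h4 : (p : ℝ) ^ padicValInt p n ≤ |(n : ℝ)| := by exact_mod_cast h2
    refine le_trans (pow_le_pow_left₀ (by norm_num) ?_ _) h4
    exact_mod_cast hp.two_le
  have h4 := Real.log_le_log (by positivity) h3
  rw [Real.log_pow] at h4
  have h5 : (1 : ℝ) / 2 ≤ Real.log 2 := by
    have := Real.log_two_gt_d9
    linarith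
  have h6 : (0 : ℝ) ≤ padicValInt p n := Nat.cast_nonneg _
  nlinarith

theorem count3 (r q : ℕ) (hr : 1 ≤ r) (hq : 1 ≤ q) (G : ℤ[X]) (hG : G ≠ 0)
    (hGq : G.natDegree ≤ q) (S : Finset ℕ) (hS : ∀ p ∈ S, p.Prime) (θ c δ : ℝ) (hθ : 0 ≤ θ)
    (hδ : 0 < δ) :
    ∃ C : ℝ, ∀ B : ℝ, 1 ≤ B → ∀ E : Finset ℂ,
      (∀ x ∈ E, ∃ f : ℤ[X], f ≠ 0 ∧ f.natDegree = r ∧ aeval x f = 0 ∧ mm f ≤ B ^ r ∧
        resultant f G r q ≠ 0 ∧ |((resultant f G r q : ℤ) : ℝ)| ≤
          (Real.exp c * B ^ θ) * ∏ p ∈ S, (p : ℝ) ^ padicValInt p (resultant f G r q)) →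
      (E.card : ℝ) ≤ C * B ^ (θ / q + (r : ℝ) * r + δ) := by
  classical
  obtain ⟨c₀, hc₀⟩ := exists_eval_ne_zero G hG
  obtain ⟨W, hW⟩ := count2 r q hq G hGq c₀ hc₀ S hS
  have hq0 : (0 : ℝ) < q := by exact_mod_cast hq
  set CG : ℝ := 1 + ∑ i ∈ range (q + 1), |(G.coeff i : ℝ)| with hCG
  have hCG1 : 1 ≤ CG := by
    have : 0 ≤ ∑ i ∈ range (q + 1), |(G.coeff i : ℝ)| := Finset.sum_nonneg fun _ _ => abs_nonneg _
    linarith
  set σ : ℝ := δ / (S.card + 1) with hσ
  have hσ0 : 0 < σ := by positivity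
  set Ca : ℝ := ((q + 1) * Real.exp c) ^ (1 / q : ℝ) + 1 with hCa
  set Cb : ℝ := ((2 * (W * 2 ^ r) + 1 : ℝ)) ^ r with hCb
  set Cc : ℝ := (2 * (r * Real.log CG) + 2 * (r * q) / σ + 1) ^ S.card with hCc
  refine ⟨r * (((q : ℝ) ^ S.card * (2 * q) * Ca) * (Cb * Cc)), fun B hB E hE => ?_⟩
  choose! f hf0 hfd hfx hfM hfR hfb using hE
  have hB0 : 0 < B := by linarith
  have hlCG : 0 ≤ Real.log CG := Real.log_nonneg hCG1
  have hlB : 0 ≤ Real.log B := Real.log_nonneg hB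
  set N : ℕ := ⌊(2 : ℝ) ^ r * B ^ r⌋₊ with hN
  set K : ℕ := ⌊2 * (r * Real.log CG + r * q * Real.log B)⌋₊ with hK
  have hNle : (N : ℝ) ≤ 2 ^ r * B ^ r := Nat.floor_le (by positivity)
  have hKle : (K : ℝ) ≤ 2 * (r * Real.log CG + r * q * Real.log B) := Nat.floor_le (by positivity)
  set Y : ℝ := Real.exp c * B ^ θ with hY
  have hY0 : 0 < Y := by positivity
  have key := hW N K Y hY0 (E.image f) (by
    intro g hg
    obtain ⟨x, hx, rfl⟩ := Finset.mem_image.1 hg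
    refine ⟨(hfd x hx).le, fun i => ?_, fun p hp => ?_, hfb x hx⟩
    · have h1 := coeff_le (f x) i
      rw [hfd x hx] at h1
      have h2 : (|(f x).coeff i| : ℝ) ≤ 2 ^ r * B ^ r :=
        h1.trans (mul_le_mul_of_nonneg_left (hfM x hx) (by positivity))
      have h3 : ((f x).coeff i).natAbs ≤ N := by
        apply Nat.le_floor
        rw [Nat.cast_natAbs]
        push_cast
        exact h2
      rw [Int.abs_eq_natAbs]
      exact_mod_cast h3
    · apply Nat.le_floor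
      refine (padic_le p (hS p hp) _ (hfR x hx)).trans ?_
      have h1 := abs_res_le (f x) G q hGq
      rw [hfd x hx] at h1
      have h2 : |((resultant (f x) G r q : ℤ) : ℝ)| ≤ CG ^ r * (B ^ r) ^ q := by
        refine h1.trans ?_
        refine mul_le_mul_of_nonneg_left ?_ (by positivity)
        exact pow_le_pow_left₀ (le_trans zero_le_one (one_le_mm (hf0 x hx))) (hfM x hx) _
      have h3 := Real.log_le_log (abs_pos.2 (by exact_mod_cast hfR x hx)) h2
      rw [Real.log_mul (by positivity) (by positivity), Real.log_pow, ← pow_mul, Real.log_pow] at h3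
      push_cast at h3
      linarith)
  -- points per polynomial
  have hcard : E.card ≤ r * (E.image f).card := by
    refine Finset.card_le_mul_card_image E r fun a ha => ?_
    obtain ⟨x₀, hx₀, rfl⟩ := Finset.mem_image.mp ha
    have h3 : (E.filter fun x => f x = f x₀) ⊆
        ((f x₀).map (Int.castRingHom ℂ)).roots.toFinset := by
      intro x hx
      rw [Finset.mem_filter] at hx
      rw [Multiset.mem_toFinset, mem_roots']
      refine ⟨?_, ?_⟩
      · rw [Polynomial.map_ne_zero_iff (RingHom.injective_int _)]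
        exact hf0 x₀ hx₀
      · have h5 := hfx x hx.1
        rw [hx.2] at h5
        rw [IsRoot.def, eval_map]
        rw [aeval_def] at h5
        exact h5
    refine (Finset.card_le_card h3).trans ((Multiset.toFinset_card_le _).trans ?_)
    refine (card_roots' _).trans ?_
    rw [natDegree_map_eq_of_injective (RingHom.injective_int _)]
    exact (hfd x₀ hx₀).le
  have hcard' : (E.card : ℝ) ≤ r * ((E.image f).card : ℝ) := by exact_mod_cast hcard
  refine hcard'.trans ?_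
  have hr0 : (0 : ℝ) ≤ r := Nat.cast_nonneg _
  -- the three factors
  have f1 : ((q + 1) * Y) ^ (1 / q : ℝ) + 1 ≤ Ca * B ^ (θ / q) := by
    have h1 : ((q + 1) * Y) ^ (1 / q : ℝ) =
        ((q + 1) * Real.exp c) ^ (1 / q : ℝ) * B ^ (θ / q) := by
      rw [hY, ← mul_assoc, Real.mul_rpow (by positivity) (by positivity), ← Real.rpow_mul hB0.le]
      congr 2
      ring
    have h2 : (1 : ℝ) ≤ B ^ (θ / q) := Real.one_le_rpow hB (by positivity)
    rw [h1, hCa, add_mul, one_mul]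
    linarith
  have f2 : (2 * (W * N) + 1 : ℝ) ^ r ≤ Cb * B ^ ((r : ℝ) * r) := by
    have h1 : (1 : ℝ) ≤ B ^ r := one_le_pow₀ hB
    have h2 : (2 * (W * N) + 1 : ℝ) ≤ (2 * (W * 2 ^ r) + 1) * B ^ r := by
      have h3 : (W : ℝ) * N ≤ W * (2 ^ r * B ^ r) :=
        mul_le_mul_of_nonneg_left hNle (Nat.cast_nonneg _)
      nlinarith
    calc (2 * (W * N) + 1 : ℝ) ^ r ≤ ((2 * (W * 2 ^ r) + 1) * B ^ r) ^ r :=
          pow_le_pow_left₀ (by positivity) h2 _
      _ = Cb * B ^ ((r : ℝ) * r) := by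
          rw [mul_pow, hCb, ← pow_mul, ← Real.rpow_natCast B (r * r)]
          push_cast
          rfl
  have f3 : ((K : ℝ) + 1) ^ S.card ≤ Cc * B ^ δ := by
    have h1 : Real.log B ≤ B ^ σ / σ := Real.log_le_rpow_div hB0.le hσ0
    have h2 : (1 : ℝ) ≤ B ^ σ := Real.one_le_rpow hB hσ0.le
    have h3 : (K : ℝ) + 1 ≤ (2 * (r * Real.log CG) + 2 * (r * q) / σ + 1) * B ^ σ := by
      have h4 : (r : ℝ) * q * Real.log B ≤ r * q * (B ^ σ / σ) :=
        mul_le_mul_of_nonneg_left h1 (by positivity)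
      have h5 : (r : ℝ) * Real.log CG ≤ (r * Real.log CG) * B ^ σ :=
        le_mul_of_one_le_right (by positivity) h2
      calc (K : ℝ) + 1 ≤ 2 * ((r * Real.log CG) * B ^ σ + r * q * (B ^ σ / σ)) + B ^ σ := by linarith
        _ = _ := by ring
    calc ((K : ℝ) + 1) ^ S.card ≤ ((2 * (r * Real.log CG) + 2 * (r * q) / σ + 1) * B ^ σ) ^ S.card :=
          pow_le_pow_left₀ (by positivity) h3 _
      _ = Cc * B ^ (σ * S.card) := by
          rw [mul_pow, hCc, ← Real.rpow_natCast (B ^ σ), ← Real.rpow_mul hB0.le]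
      _ ≤ Cc * B ^ δ := by
          refine mul_le_mul_of_nonneg_left ?_ (by positivity)
          refine Real.rpow_le_rpow_of_exponent_le hB ?_
          rw [hσ, div_mul_eq_mul_div, div_le_iff₀ (by positivity)]
          nlinarith
  have hCa0 : 0 ≤ Ca := by positivity
  have hCb0 : 0 ≤ Cb := by positivity
  have hCc0 : 0 ≤ Cc := by positivity
  calc (r : ℝ) * ((E.image f).card : ℝ)
      ≤ r * (((q : ℝ) ^ S.card * (2 * q) * (((q + 1) * Y) ^ (1 / q : ℝ) + 1)) *
        ((2 * (W * N) + 1) ^ r * (K + 1) ^ S.card)) := mul_le_mul_of_nonneg_left key hr0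
    _ ≤ r * (((q : ℝ) ^ S.card * (2 * q) * (Ca * B ^ (θ / q))) *
        ((Cb * B ^ ((r : ℝ) * r)) * (Cc * B ^ δ))) := by
        gcongr
    _ = (r * (((q : ℝ) ^ S.card * (2 * q) * Ca) * (Cb * Cc))) *
        (B ^ (θ / q) * B ^ ((r : ℝ) * r) * B ^ δ) := by ring
    _ = _ := by
        rw [← Real.rpow_add hB0, ← Real.rpow_add hB0]

end Pool.Agent.H990R4.VJ
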