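import Mathlib
import Pool.Agent.H990R4.VJ.D

set_option autoImplicit false

namespace Pool.Agent.H990R4.VJ

open Polynomial Finset

/-- `z` lies in the ring `ℤ[√(-d)]`. -/
def InR (d : ℕ) (z : ℂ) : Prop := ∃ a b : ℤ, z = a + b * (√(d : ℝ) * Complex.I)

lemma InR.int (d : ℕ) (n : ℤ) : InR d n := ⟨n, 0, by simp⟩

lemma InR.add {d : ℕ} {z w : ℂ} (hz : InR d z) (hw : InR d w) : InR d (z + w) := by
  obtain ⟨a, b, rfl⟩ := hz
  obtain ⟨a', b', rfl⟩ := hw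
  exact ⟨a + a', b + b', by push_cast; ring⟩

lemma InR.mul {d : ℕ} {z w : ℂ} (hz : InR d z) (hw : InR d w) : InR d (z * w) := by
  obtain ⟨a, b, rfl⟩ := hz
  obtain ⟨a', b', rfl⟩ := hw
  have h : ((√(d : ℝ) : ℝ) : ℂ) * ((√(d : ℝ) : ℝ) : ℂ) = d := by
    rw [← Complex.ofReal_mul, Real.mul_self_sqrt (Nat.cast_nonneg _)]; simp
  refine ⟨a * a' - b * b' * d, a * b' + b * a', ?_⟩
  push_cast
  linear_combination (b * b' * (Complex.I * Complex.I)) * h + (b * b' * d : ℂ) * Complex.I_mul_I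

lemma InR.pow {d : ℕ} {z : ℂ} (hz : InR d z) (n : ℕ) : InR d (z ^ n) := by
  induction n with
  | zero => simpa using InR.int d 1
  | succ n ih => rw [pow_succ]; exact ih.mul hz

lemma InR.sum {d : ℕ} {ι : Type*} (s : Finset ι) (g : ι → ℂ) (h : ∀ i ∈ s, InR d (g i)) :
    InR d (∑ i ∈ s, g i) := by
  classical
  induction s using Finset.induction_on with
  | empty => simpa using InR.int d 0
  | insert a s ha ih =>
    rw [Finset.sum_insert ha]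
    exact (h a (Finset.mem_insert_self _ _)).add (ih fun i hi => h i (Finset.mem_insert_of_mem hi))

lemma InR.one_le {d : ℕ} {z : ℂ} (hz : InR d z) (h0 : z ≠ 0) : 1 ≤ ‖z‖ := by
  obtain ⟨a, b, rfl⟩ := hz
  have h1 : ‖((a : ℂ) + b * (√(d : ℝ) * Complex.I))‖ ^ 2 = ((a ^ 2 + d * b ^ 2 : ℤ) : ℝ) := by
    rw [← Complex.normSq_eq_norm_sq, Complex.normSq_apply]
    simp
    have := Real.mul_self_sqrt (show (0 : ℝ) ≤ d from Nat.cast_nonneg _)
    nlinarith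
  have h2 : 0 < ‖((a : ℂ) + b * (√(d : ℝ) * Complex.I))‖ ^ 2 := by
    have := norm_pos_iff.2 h0
    positivity
  rw [h1] at h2
  have h3 : (0 : ℤ) < a ^ 2 + d * b ^ 2 := by exact_mod_cast h2
  have h4 : (1 : ℤ) ≤ a ^ 2 + d * b ^ 2 := h3
  have h5 : (1 : ℝ) ≤ ‖((a : ℂ) + b * (√(d : ℝ) * Complex.I))‖ ^ 2 := by
    rw [h1]; exact_mod_cast h4
  nlinarith [norm_nonneg ((a : ℂ) + b * (√(d : ℝ) * Complex.I))]

/-- the value of the form of degree `r` attached to `f` at the point `(α, β)` -/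
noncomputable def form (r : ℕ) (f : ℤ[X]) (P : ℂ × ℂ) : ℂ :=
  ∑ i : Fin (r + 1), (f.coeff i : ℂ) * (P.1 ^ (i : ℕ) * P.2 ^ (i.rev : ℕ))

lemma form_InR (r : ℕ) (f : ℤ[X]) (P : ℂ × ℂ) (d : ℕ) (h1 : InR d P.1) (h2 : InR d P.2) :
    InR d (form r f P) :=
  InR.sum _ _ fun _ _ => (InR.int d _).mul ((h1.pow _).mul (h2.pow _))

/-- general position -/
lemma exists_gp (r q : ℕ) (P : Fin q → ℂ × ℂ)
    (hdist : ∀ i j, i ≠ j → (P i).1 * (P j).2 ≠ (P j).1 * (P i).2) :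
    ∃ K : ℝ, 1 ≤ K ∧ ∀ f : ℤ[X], ∀ s : Fin (r + 1) → Fin q, Function.Injective s → ∀ η : ℝ,
      (∀ j, ‖form r f (P (s j))‖ ≤ η) → ∀ i : Fin (r + 1), ‖(f.coeff i : ℂ)‖ ≤ K * η := by
  classical
  let A : (Fin (r + 1) → Fin q) → Matrix (Fin (r + 1)) (Fin (r + 1)) ℂ := fun s =>
    Matrix.projVandermonde (fun j => (P (s j)).1) (fun j => (P (s j)).2)
  refine ⟨1 + ∑ s : Fin (r + 1) → Fin q, ∑ i, ∑ j, ‖(A s)⁻¹ i j‖, ?_, ?_⟩
  · have : 0 ≤ ∑ s : Fin (r + 1) → Fin q, ∑ i, ∑ j, ‖(A s)⁻¹ i j‖ := by positivity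
    linarith
  intro f s hs η hη i
  have hη0 : 0 ≤ η := (norm_nonneg _).trans (hη i)
  have hdet : IsUnit (A s).det := by
    rw [isUnit_iff_ne_zero, Matrix.det_projVandermonde]
    refine Finset.prod_ne_zero_iff.2 fun i _ => Finset.prod_ne_zero_iff.2 fun j hj => ?_
    rw [Finset.mem_Ioi] at hj
    have := hdist (s j) (s i) (fun h => hj.ne' (hs h))
    exact sub_ne_zero.2 (by rw [mul_comm (P (s i)).1]; rw [mul_comm (P (s j)).2, ] at *; exact this)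
  have hmul : (A s).mulVec (fun k => (f.coeff (k : Fin (r + 1)) : ℂ)) =
      fun j => form r f (P (s j)) := by
    ext j
    simp only [Matrix.mulVec, dotProduct, A, Matrix.projVandermonde_apply, form]
    exact Finset.sum_congr rfl fun k _ => by ring
  have hinv : (fun k => (f.coeff (k : Fin (r + 1)) : ℂ)) =
      (A s)⁻¹.mulVec (fun j => form r f (P (s j))) := by
    rw [← hmul, Matrix.mulVec_mulVec, Matrix.nonsing_inv_mul _ hdet, Matrix.one_mulVec]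
  have h1 := congrFun hinv i
  simp only [Matrix.mulVec, dotProduct] at h1
  rw [h1]
  have h2 : ‖∑ j, (A s)⁻¹ i j * form r f (P (s j))‖ ≤ (∑ j, ‖(A s)⁻¹ i j‖) * η := by
    rw [Finset.sum_mul]
    refine (norm_sum_le _ _).trans (Finset.sum_le_sum fun j _ => ?_)
    rw [norm_mul]
    exact mul_le_mul_of_nonneg_left (hη j) (norm_nonneg _)
  refine h2.trans (mul_le_mul_of_nonneg_right ?_ hη0)
  have h3 : ∑ j, ‖(A s)⁻¹ i j‖ ≤ ∑ i, ∑ j, ‖(A s)⁻¹ i j‖ :=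
    Finset.single_le_sum (f := fun i => ∑ j, ‖(A s)⁻¹ i j‖) (fun _ _ => by positivity)
      (Finset.mem_univ i)
  have h4 : ∑ i, ∑ j, ‖(A s)⁻¹ i j‖ ≤ ∑ s : Fin (r + 1) → Fin q, ∑ i, ∑ j, ‖(A s)⁻¹ i j‖ :=
    Finset.single_le_sum (f := fun s : Fin (r + 1) → Fin q => ∑ i, ∑ j, ‖(A s)⁻¹ i j‖)
      (fun _ _ => by positivity) (Finset.mem_univ s)
  linarith

end Pool.Agent.H990R4.VJ
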