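import Mathlib
import Pool.Agent.H990R4.VJ.L

set_option autoImplicit false

namespace Pool.Agent.H990R4.VJ

open Polynomial Finset

/-- the form as a product over the complex roots -/
lemma form_eq (f : ℤ[X]) (P : ℂ × ℂ) :
    form f.natDegree f P = (f.leadingCoeff : ℂ) *
      ((f.map (Int.castRingHom ℂ)).roots.map fun z => P.1 - z * P.2).prod := by
  have hcard : (f.map (Int.castRingHom ℂ)).roots.card = f.natDegree := by
    rw [← (IsAlgClosed.splits (f.map (Int.castRingHom ℂ))).natDegree_eq_card_roots,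
      natDegree_map_eq_of_injective (RingHom.injective_int _)]
  have hev : ∀ x : ℂ, ∑ i : Fin (f.natDegree + 1), (f.coeff i : ℂ) * x ^ (i : ℕ) =
      (f.leadingCoeff : ℂ) * ((f.map (Int.castRingHom ℂ)).roots.map fun z => x - z).prod := by
    intro x
    have h1 := (IsAlgClosed.splits (f.map (Int.castRingHom ℂ))).eval_eq_prod_roots x
    rw [leadingCoeff_map_of_injective (RingHom.injective_int _)] at h1
    rw [eval_eq_sum_range' (n := f.natDegree + 1) (Nat.lt_succ_of_le natDegree_map_le)] at h1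
    rw [Finset.sum_range] at h1
    simpa using h1
  unfold form
  by_cases hb : P.2 = 0
  · rw [hb]
    simp only [mul_zero, sub_zero]
    rw [Multiset.map_const', Multiset.prod_replicate, hcard,
      Finset.sum_eq_single (Fin.last f.natDegree)]
    · simp
    · intro i _ hi
      have : (i.rev : ℕ) ≠ 0 := by
        rw [Fin.val_rev]
        have h1 : (i : ℕ) ≠ f.natDegree := fun h => hi (Fin.ext (by simpa using h))
        have h2 := i.2
        omega
      rw [zero_pow this]; ring
    · intro h; exact absurd (Finset.mem_univ _) h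
  · have h1 := hev (P.1 / P.2)
    have h2 : ∑ i : Fin (f.natDegree + 1), (f.coeff i : ℂ) * (P.1 ^ (i : ℕ) * P.2 ^ (i.rev : ℕ)) =
        P.2 ^ f.natDegree * ∑ i : Fin (f.natDegree + 1), (f.coeff i : ℂ) * (P.1 / P.2) ^ (i : ℕ) := by
      rw [Finset.mul_sum]
      refine Finset.sum_congr rfl fun i _ => ?_
      have h3 : P.2 ^ f.natDegree = P.2 ^ (i : ℕ) * P.2 ^ (i.rev : ℕ) := by
        rw [← pow_add]
        congr 1
        rw [Fin.val_rev]
        have := i.2
        omega
      rw [h3, div_pow]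
      field_simp
    rw [h2, h1]
    have h4 : ((f.map (Int.castRingHom ℂ)).roots.map fun z => P.1 - z * P.2).prod =
        P.2 ^ f.natDegree * ((f.map (Int.castRingHom ℂ)).roots.map fun z => P.1 / P.2 - z).prod := by
      rw [← hcard, ← Multiset.prod_replicate, ← Multiset.map_const', ← Multiset.prod_map_mul]
      refine congrArg _ (Multiset.map_congr rfl fun z _ => ?_)
      field_simp
    rw [h4]; ring

lemma sum_log_form (f : ℤ[X]) (P : ℂ × ℂ) (hf : f ≠ 0) (hR : form f.natDegree f P ≠ 0) :
    ((f.map (Int.castRingHom ℂ)).roots.map fun z =>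
      Real.log (max 1 ‖z‖ / ‖P.1 - z * P.2‖)).sum =
      Real.log (mm f) - Real.log ‖form f.natDegree f P‖ := by
  have h := congrArg norm (form_eq f P)
  rw [norm_mul, Complex.norm_intCast] at h
  have h1 : ‖((f.map (Int.castRingHom ℂ)).roots.map fun z => P.1 - z * P.2).prod‖ =
      ((f.map (Int.castRingHom ℂ)).roots.map fun z => ‖P.1 - z * P.2‖).prod := by
    have h5 := map_multiset_prod (normHom : ℂ →*₀ ℝ) ((f.map (Int.castRingHom ℂ)).roots.map fun z =>
      P.1 - z * P.2)
    rw [Multiset.map_map] at h5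
    exact h5
  rw [h1] at h
  have hl : (0 : ℝ) < |(f.leadingCoeff : ℝ)| :=
    abs_pos.2 (by exact_mod_cast leadingCoeff_ne_zero.2 hf)
  have hRR : ‖form f.natDegree f P‖ ≠ 0 := norm_ne_zero_iff.2 hR
  have hG0 : ∀ z ∈ (f.map (Int.castRingHom ℂ)).roots, ‖P.1 - z * P.2‖ ≠ 0 := by
    intro z hz h0
    apply hRR
    rw [h]
    have : ((f.map (Int.castRingHom ℂ)).roots.map fun z => ‖P.1 - z * P.2‖).prod = 0 :=
      Multiset.prod_eq_zero (Multiset.mem_map.2 ⟨z, hz, h0⟩)
    rw [this, mul_zero]
  have hm0 : ∀ z : ℂ, max 1 ‖z‖ ≠ 0 := fun z => (lt_of_lt_of_le one_pos (le_max_left _ _)).ne'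
  have e1 : ((f.map (Int.castRingHom ℂ)).roots.map fun z =>
      Real.log (max 1 ‖z‖ / ‖P.1 - z * P.2‖)).sum =
      ((f.map (Int.castRingHom ℂ)).roots.map fun z => Real.log (max 1 ‖z‖)).sum -
      ((f.map (Int.castRingHom ℂ)).roots.map fun z => Real.log ‖P.1 - z * P.2‖).sum := by
    rw [← Multiset.sum_map_sub]
    refine congrArg _ (Multiset.map_congr rfl fun z hz => ?_)
    rw [Real.log_div (hm0 z) (hG0 z hz)]
  have e2 : Real.log (((f.map (Int.castRingHom ℂ)).roots.map fun z => max 1 ‖z‖).prod) =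
      ((f.map (Int.castRingHom ℂ)).roots.map fun z => Real.log (max 1 ‖z‖)).sum := by
    rw [Real.log_multiset_prod, Multiset.map_map]
    · rfl
    · intro x hx h0
      obtain ⟨z, _, hz⟩ := Multiset.mem_map.1 hx
      exact hm0 z (hz.trans h0)
  have e3 : Real.log (((f.map (Int.castRingHom ℂ)).roots.map fun z => ‖P.1 - z * P.2‖).prod) =
      ((f.map (Int.castRingHom ℂ)).roots.map fun z => Real.log ‖P.1 - z * P.2‖).sum := by
    rw [Real.log_multiset_prod, Multiset.map_map]
    · rfl
    · intro x hx h0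
      obtain ⟨z, hz, hz0⟩ := Multiset.mem_map.1 hx
      exact hG0 z hz (hz0.trans h0)
  have hp1 : ((f.map (Int.castRingHom ℂ)).roots.map fun z => max 1 ‖z‖).prod ≠ 0 := by
    apply Multiset.prod_ne_zero
    intro h0
    obtain ⟨z, _, hz⟩ := Multiset.mem_map.1 h0
    exact hm0 z hz
  have hp2 : ((f.map (Int.castRingHom ℂ)).roots.map fun z => ‖P.1 - z * P.2‖).prod ≠ 0 := by
    apply Multiset.prod_ne_zero
    intro h0
    obtain ⟨z, hz, hz0⟩ := Multiset.mem_map.1 h0
    exact hG0 z hz hz0
  rw [e1, ← e2, ← e3, h, mm_eq, Real.log_mul hl.ne' hp2, Real.log_mul hl.ne' hp1]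
  ring

/-- The main estimate: the total proximity to integral points in imaginary quadratic fields. -/
theorem main_bound (r q : ℕ) (P : Fin q → ℂ × ℂ)
    (hint : ∀ j, ∃ d : ℕ, InR d (P j).1 ∧ InR d (P j).2)
    (hdist : ∀ i j, i ≠ j → (P i).1 * (P j).2 ≠ (P j).1 * (P i).2) :
    ∃ C : ℝ, ∀ f : ℤ[X], f ≠ 0 → f.natDegree = r → (∀ j, form r f (P j) ≠ 0) →
      ∑ j, (Real.log (mm f) - Real.log ‖form r f (P j)‖) ≤ r * Real.log (mm f) + C := by
  classical
  obtain ⟨K, hK1, hK⟩ := exists_gp r q P hdist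
  have hK0 : 0 < K := by linarith
  set c : ℝ := Real.log (2 * K * (r + 1)) with hc
  have hr1 : (1 : ℝ) ≤ r + 1 := by
    have : (0 : ℝ) ≤ r := Nat.cast_nonneg _
    linarith
  have hc0 : 0 ≤ c := Real.log_nonneg (by nlinarith)
  refine ⟨q * c, fun f hf hd hne => ?_⟩
  have hM1 : 1 ≤ mm f := one_le_mm hf
  have hM0 : 0 < mm f := by linarith
  have hlM : 0 ≤ Real.log (mm f) := Real.log_nonneg hM1
  -- the maximal coefficient
  obtain ⟨i₀, _, hi₀⟩ := Finset.exists_max_image (Finset.univ : Finset (Fin (r + 1)))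
    (fun i => ‖(f.coeff i : ℂ)‖) Finset.univ_nonempty
  set m : ℝ := ‖(f.coeff i₀ : ℂ)‖ with hm
  have hMm : mm f ≤ (r + 1) * m := by
    have h1 := mahlerMeasure_le_sum_norm_coeff (f.map (Int.castRingHom ℂ))
    rw [sum_over_range' _ (by simp) (r + 1) (by
      rw [natDegree_map_eq_of_injective (RingHom.injective_int _), hd]; omega)] at h1
    refine h1.trans ?_
    have h2 : ∑ a ∈ range (r + 1), ‖(f.map (Int.castRingHom ℂ)).coeff a‖ ≤
        ∑ _a ∈ range (r + 1), m := by
      refine Finset.sum_le_sum fun a ha => ?_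
      rw [coeff_map]
      exact hi₀ ⟨a, Finset.mem_range.1 ha⟩ (Finset.mem_univ _)
    rw [Finset.sum_const, Finset.card_range, nsmul_eq_mul] at h2
    push_cast at h2
    exact h2
  have hm0 : 0 < m := by
    by_contra hcon
    push Not at hcon
    nlinarith
  set η : ℝ := m / (2 * K) with hη
  have hη0 : 0 < η := by positivity
  set J : Finset (Fin q) := Finset.univ.filter fun j => ‖form r f (P j)‖ ≤ η with hJ
  have hJc : J.card ≤ r := by
    by_contra hcon
    push Not at hcon
    obtain ⟨J', hJ', hJ'c⟩ := Finset.exists_subset_card_eq (n := r + 1) hcon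
    have h1 := hK f (fun k => (J'.orderEmbOfFin hJ'c k)) (fun a b hab => by simpa using hab) η (by
      intro j
      have h2 := hJ' (Finset.orderEmbOfFin_mem J' hJ'c j)
      exact (Finset.mem_filter.1 h2).2) i₀
    have h3 : K * η = m / 2 := by
      rw [hη]; field_simp
    rw [h3] at h1
    linarith
  have hterm : ∀ j, Real.log (mm f) - Real.log ‖form r f (P j)‖ ≤
      (if j ∈ J then Real.log (mm f) else 0) + c := by
    intro j
    obtain ⟨d, hd1, hd2⟩ := hint j
    have h1 : 1 ≤ ‖form r f (P j)‖ := (form_InR r f (P j) d hd1 hd2).one_le (hne j)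
    split_ifs with hj
    · have := Real.log_nonneg h1
      linarith
    · have h2 : η < ‖form r f (P j)‖ := by
        by_contra hcon
        push Not at hcon
        exact hj (Finset.mem_filter.2 ⟨Finset.mem_univ _, hcon⟩)
      have h3 : mm f ≤ (2 * K * (r + 1)) * ‖form r f (P j)‖ := by
        refine hMm.trans ?_
        have h4 : m = 2 * K * η := by rw [hη]; field_simp
        rw [h4]
        have h5 : (r + 1) * (2 * K * η) = (2 * K * (r + 1)) * η := by ring
        rw [h5]
        exact mul_le_mul_of_nonneg_left h2.le (by positivity)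
      have h4 := Real.log_le_log hM0 h3
      rw [Real.log_mul (by positivity) (by positivity)] at h4
      rw [zero_add]
      linarith
  calc ∑ j, (Real.log (mm f) - Real.log ‖form r f (P j)‖)
      ≤ ∑ j, ((if j ∈ J then Real.log (mm f) else 0) + c) := Finset.sum_le_sum fun j _ => hterm j
    _ = J.card * Real.log (mm f) + q * c := by
        rw [Finset.sum_add_distrib, Finset.sum_ite_mem, Finset.univ_inter, Finset.sum_const,
          Finset.sum_const, Finset.card_univ, Fintype.card_fin, nsmul_eq_mul, nsmul_eq_mul]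
    _ ≤ r * Real.log (mm f) + q * c := by
        have : (J.card : ℝ) ≤ r := by exact_mod_cast hJc
        nlinarith

end Pool.Agent.H990R4.VJ
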