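import Mathlib
import Pool.Agent.H990R4.VJ.D

set_option autoImplicit false

namespace Pool.Agent.H990R4.VJ.Red

open Polynomial Finset

section field

variable {F : Type*} [NormedField F]

/-- the value of the form of degree `r` attached to `f` at the point `(α, β)` -/
noncomputable def fm (r : ℕ) (f : ℤ[X]) (P : F × F) : F :=
  ∑ i : Fin (r + 1), (f.coeff i : F) * (P.1 ^ (i : ℕ) * P.2 ^ (i.rev : ℕ))

lemma fm_sub (r : ℕ) (f f' E : ℤ[X]) (a : ℤ) (h : f - f' = C a * E) (P : F × F) :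
    fm r f P - fm r f' P = (a : F) * fm r E P := by
  unfold fm
  rw [← Finset.sum_sub_distrib, Finset.mul_sum]
  refine Finset.sum_congr rfl fun i _ => ?_
  have h1 : f.coeff i - f'.coeff i = a * E.coeff i := by
    have := congrArg (fun g => coeff g (i : ℕ)) h
    simpa using this
  have h2 : (f.coeff i : F) - (f'.coeff i : F) = (a : F) * (E.coeff i : F) := by
    exact_mod_cast congrArg (Int.cast : ℤ → F) h1
  linear_combination (P.1 ^ (i : ℕ) * P.2 ^ (i.rev : ℕ)) * h2

/-- general position -/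
lemma exists_gp (r q : ℕ) (P : Fin q → F × F)
    (hdist : ∀ i j, i ≠ j → (P i).1 * (P j).2 ≠ (P j).1 * (P i).2) :
    ∃ K : ℝ, 1 ≤ K ∧ ∀ f : ℤ[X], ∀ s : Fin (r + 1) → Fin q, Function.Injective s → ∀ η : ℝ,
      (∀ j, ‖fm r f (P (s j))‖ ≤ η) → ∀ i : Fin (r + 1), ‖(f.coeff i : F)‖ ≤ K * η := by
  classical
  let A : (Fin (r + 1) → Fin q) → Matrix (Fin (r + 1)) (Fin (r + 1)) F := fun s =>
    Matrix.projVandermonde (fun j => (P (s j)).1) (fun j => (P (s j)).2)
  refine ⟨1 + ∑ s : Fin (r + 1) → Fin q, ∑ i, ∑ j, ‖(A s)⁻¹ i j‖, ?_, ?_⟩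
  · have : 0 ≤ ∑ s : Fin (r + 1) → Fin q, ∑ i, ∑ j, ‖(A s)⁻¹ i j‖ := by positivity
    linarith
  intro f s hs η hη i
  have hη0 : 0 ≤ η := (norm_nonneg _).trans (hη i)
  have hdet : IsUnit (A s).det := by
    rw [isUnit_iff_ne_zero, Matrix.det_projVandermonde]
    refine Finset.prod_ne_zero_iff.2 fun i _ => Finset.prod_ne_zero_iff.2 fun j hj => ?_
    rw [Finset.mem_Ioi] at hj
    have := hdist (s j) (s i) (fun h => hj.ne' (hs h))
    exact sub_ne_zero.2 (by rw [mul_comm (P (s i)).1]; rw [mul_comm (P (s j)).2, ] at *; exact this)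
  have hmul : (A s).mulVec (fun k => (f.coeff (k : Fin (r + 1)) : F)) =
      fun j => fm r f (P (s j)) := by
    ext j
    simp only [Matrix.mulVec, dotProduct, A, Matrix.projVandermonde_apply, fm]
    exact Finset.sum_congr rfl fun k _ => by ring
  have hinv : (fun k => (f.coeff (k : Fin (r + 1)) : F)) =
      (A s)⁻¹.mulVec (fun j => fm r f (P (s j))) := by
    rw [← hmul, Matrix.mulVec_mulVec, Matrix.nonsing_inv_mul _ hdet, Matrix.one_mulVec]
  have h1 := congrFun hinv i
  simp only [Matrix.mulVec, dotProduct] at h1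
  rw [h1]
  have h2 : ‖∑ j, (A s)⁻¹ i j * fm r f (P (s j))‖ ≤ (∑ j, ‖(A s)⁻¹ i j‖) * η := by
    rw [Finset.sum_mul]
    refine (norm_sum_le _ _).trans (Finset.sum_le_sum fun j _ => ?_)
    rw [norm_mul]
    exact mul_le_mul_of_nonneg_left (hη j) (norm_nonneg _)
  refine h2.trans (mul_le_mul_of_nonneg_right ?_ hη0)
  have h3 : ∑ j, ‖(A s)⁻¹ i j‖ ≤ ∑ i, ∑ j, ‖(A s)⁻¹ i j‖ :=
    Finset.single_le_sum (f := fun i => ∑ j, ‖(A s)⁻¹ i j‖) (fun _ _ => by positivity)
      (Finset.mem_univ i)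
  have h4 : ∑ i, ∑ j, ‖(A s)⁻¹ i j‖ ≤ ∑ s : Fin (r + 1) → Fin q, ∑ i, ∑ j, ‖(A s)⁻¹ i j‖ :=
    Finset.single_le_sum (f := fun s : Fin (r + 1) → Fin q => ∑ i, ∑ j, ‖(A s)⁻¹ i j‖)
      (fun _ _ => by positivity) (Finset.mem_univ s)
  linarith

lemma exists_upper (r q : ℕ) (P : Fin q → F × F) :
    ∃ U : ℝ, 1 ≤ U ∧ ∀ (f : ℤ[X]) (s : ℝ), (∀ i : Fin (r + 1), ‖(f.coeff i : F)‖ ≤ s) →
      ∀ j, ‖fm r f (P j)‖ ≤ U * s := by
  refine ⟨1 + ∑ j, ∑ i : Fin (r + 1), ‖(P j).1 ^ (i : ℕ) * (P j).2 ^ (i.rev : ℕ)‖, ?_, ?_⟩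
  · have : 0 ≤ ∑ j, ∑ i : Fin (r + 1), ‖(P j).1 ^ (i : ℕ) * (P j).2 ^ (i.rev : ℕ)‖ := by positivity
    linarith
  intro f s hs j
  have hs0 : 0 ≤ s := (norm_nonneg _).trans (hs 0)
  have h1 : ‖fm r f (P j)‖ ≤
      s * ∑ i : Fin (r + 1), ‖(P j).1 ^ (i : ℕ) * (P j).2 ^ (i.rev : ℕ)‖ := by
    unfold fm
    rw [Finset.mul_sum]
    refine (norm_sum_le _ _).trans (Finset.sum_le_sum fun i _ => ?_)
    rw [norm_mul]
    exact mul_le_mul_of_nonneg_right (hs i) (norm_nonneg _)
  have h2 : ∑ i : Fin (r + 1), ‖(P j).1 ^ (i : ℕ) * (P j).2 ^ (i.rev : ℕ)‖ ≤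
      ∑ j, ∑ i : Fin (r + 1), ‖(P j).1 ^ (i : ℕ) * (P j).2 ^ (i.rev : ℕ)‖ :=
    Finset.single_le_sum
      (f := fun j => ∑ i : Fin (r + 1), ‖(P j).1 ^ (i : ℕ) * (P j).2 ^ (i.rev : ℕ)‖)
      (fun _ _ => by positivity) (Finset.mem_univ j)
  nlinarith

/-- the nearest point carries at least a share `1 / min q r` of the total proximity -/
lemma exists_near (r q : ℕ) (hq : 1 ≤ q) (P : Fin q → F × F)
    (hdist : ∀ i j, i ≠ j → (P i).1 * (P j).2 ≠ (P j).1 * (P i).2) :
    ∃ C : ℝ, 0 < C ∧ ∀ (f : ℤ[X]) (s : ℝ), 0 < s → (∀ i : Fin (r + 1), ‖(f.coeff i : F)‖ ≤ s) →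
      (∃ i : Fin (r + 1), s ≤ ‖(f.coeff i : F)‖) →
      ∃ j, ‖fm r f (P j)‖ ^ (min q r) * s ^ (q - min q r) ≤ C * ∏ j, ‖fm r f (P j)‖ := by
  classical
  obtain ⟨K, hK1, hK⟩ := exists_gp r q P hdist
  obtain ⟨U, hU1, hU⟩ := exists_upper r q P
  have hK0 : 0 < K := by linarith
  refine ⟨U ^ (min q r) * (2 * K) ^ q, by positivity, fun f s hs0 hs1 hs2 => ?_⟩
  haveI : Nonempty (Fin q) := ⟨⟨0, hq⟩⟩
  obtain ⟨j₀, _, hj₀⟩ := Finset.exists_min_image (Finset.univ : Finset (Fin q))
    (fun j => ‖fm r f (P j)‖) Finset.univ_nonempty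
  refine ⟨j₀, ?_⟩
  set μ : ℝ := ‖fm r f (P j₀)‖ with hμ
  have hμ0 : 0 ≤ μ := norm_nonneg _
  set η : ℝ := s / (2 * K) with hη
  have hη0 : 0 < η := by positivity
  set J : Finset (Fin q) := Finset.univ.filter fun j => ‖fm r f (P j)‖ ≤ η with hJ
  have hJr : J.card ≤ r := by
    by_contra hcon
    push Not at hcon
    obtain ⟨J', hJ', hJ'c⟩ := Finset.exists_subset_card_eq (n := r + 1) hcon
    obtain ⟨i₀, hi₀⟩ := hs2
    have h1 := hK f (fun k => (J'.orderEmbOfFin hJ'c k)) (fun a b hab => by simpa using hab) η (by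
      intro j
      have h2 := hJ' (Finset.orderEmbOfFin_mem J' hJ'c j)
      exact (Finset.mem_filter.1 h2).2) i₀
    have h3 : K * η = s / 2 := by
      rw [hη]; field_simp
    rw [h3] at h1
    linarith
  have hJq : J.card ≤ q := by
    have := Finset.card_le_univ J
    simpa using this
  have hJm : J.card ≤ min q r := le_min hJq hJr
  have hprod : μ ^ J.card * η ^ (q - J.card) ≤ ∏ j, ‖fm r f (P j)‖ := by
    have h1 : ∏ j, (if j ∈ J then μ else η) ≤ ∏ j, ‖fm r f (P j)‖ := by
      refine Finset.prod_le_prod (fun j _ => ?_) (fun j _ => ?_)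
      · split_ifs
        · exact hμ0
        · exact hη0.le
      · split_ifs with hj
        · exact hj₀ j (Finset.mem_univ _)
        · by_contra hcon
          push Not at hcon
          exact hj (Finset.mem_filter.2 ⟨Finset.mem_univ _, hcon.le⟩)
    refine le_trans (le_of_eq ?_) h1
    rw [Finset.prod_ite, Finset.prod_const, Finset.prod_const]
    have h2 : (Finset.univ.filter fun j => j ∈ J).card = J.card := by
      congr 1; ext j; simp
    have h3 : (Finset.univ.filter fun j => j ∉ J).card = q - J.card := by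
      have := Finset.card_filter_add_card_filter_not (s := (Finset.univ : Finset (Fin q))) (fun j => j ∈ J)
      rw [h2, Finset.card_univ, Fintype.card_fin] at this
      omega
    rw [h2, h3]
  have hμU : μ ≤ U * s := hU f s hs1 j₀
  have hK2 : (1 : ℝ) ≤ 2 * K := by linarith
  set m := min q r with hm
  have hmq : m ≤ q := min_le_left _ _
  calc μ ^ m * s ^ (q - m) = μ ^ J.card * μ ^ (m - J.card) * s ^ (q - m) := by
        rw [← pow_add]; congr 2; omega
    _ ≤ μ ^ J.card * (U * s) ^ (m - J.card) * s ^ (q - m) := by gcongr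
    _ = U ^ (m - J.card) * (μ ^ J.card * (s ^ (m - J.card) * s ^ (q - m))) := by
        rw [mul_pow]; ring
    _ = U ^ (m - J.card) * (μ ^ J.card * s ^ (q - J.card)) := by
        rw [← pow_add]; congr 3; omega
    _ = U ^ (m - J.card) * (μ ^ J.card * ((2 * K) ^ (q - J.card) * η ^ (q - J.card))) := by
        rw [← mul_pow, hη]; congr 3; field_simp
    _ = (U ^ (m - J.card) * (2 * K) ^ (q - J.card)) * (μ ^ J.card * η ^ (q - J.card)) := by ring
    _ ≤ (U ^ m * (2 * K) ^ q) * ∏ j, ‖fm r f (P j)‖ := by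
        refine mul_le_mul ?_ hprod (by positivity) (by positivity)
        exact mul_le_mul (pow_le_pow_right₀ hU1 (Nat.sub_le _ _))
          (pow_le_pow_right₀ hK2 (Nat.sub_le _ _)) (by positivity) (by positivity)

end field

section points

variable {F : Type*} [NormedField F] [IsAlgClosed F] [CharZero F]

lemma fm_one (r : ℕ) (f : ℤ[X]) (hf : f.natDegree ≤ r) (z : F) :
    fm r f (z, 1) = (f.map (Int.castRingHom F)).eval z := by
  unfold fm
  rw [eval_eq_sum_range' (n := r + 1) (Nat.lt_succ_of_le (natDegree_map_le.trans hf)),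
    Finset.sum_range]
  refine Finset.sum_congr rfl fun i _ => ?_
  simp

lemma fm_inf (r : ℕ) (f : ℤ[X]) : fm r f ((1 : F), (0 : F)) = (f.coeff r : F) := by
  unfold fm
  rw [Finset.sum_eq_single (Fin.last r)]
  · simp
  · intro i _ hi
    have : (i.rev : ℕ) ≠ 0 := by
      rw [Fin.val_rev]
      have h1 : (i : ℕ) ≠ r := fun h => hi (Fin.ext (by simpa using h))
      have h2 := i.2
      omega
    simp only [one_pow]
    rw [zero_pow this]; ring
  · intro h; exact absurd (Finset.mem_univ _) h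

theorem exists_points (G : ℤ[X]) (hG : G ≠ 0) (hsep : (G.map (Int.castRingHom ℚ)).Separable)
    (q : ℕ) (h1 : G.natDegree ≤ q) (h2 : q ≤ G.natDegree + 1) (r : ℕ) :
    ∃ P : Fin q → F × F, (∀ i j, i ≠ j → (P i).1 * (P j).2 ≠ (P j).1 * (P i).2) ∧
      ∃ c : F, c ≠ 0 ∧ ∀ f : ℤ[X], f.natDegree ≤ r →
        ((resultant f G r q : ℤ) : F) = c * ∏ j, fm r f (P j) := by
  classical
  set n := G.natDegree with hn
  have hinj : Function.Injective (Int.castRingHom F) := RingHom.injective_int _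
  have hsepF : (G.map (Int.castRingHom F)).Separable := by
    have := hsep.map (f := algebraMap ℚ F)
    have h9 : (algebraMap ℚ F).comp (Int.castRingHom ℚ) = Int.castRingHom F := RingHom.ext_int _ _
    rw [Polynomial.map_map, h9] at this
    exact this
  have hnodup : (G.map (Int.castRingHom F)).roots.Nodup := nodup_roots hsepF
  have hcard : (G.map (Int.castRingHom F)).roots.card = n := by
    rw [← (IsAlgClosed.splits (G.map (Int.castRingHom F))).natDegree_eq_card_roots,
      natDegree_map_eq_of_injective hinj]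
  set R : Finset F := (G.map (Int.castRingHom F)).roots.toFinset with hR
  have hRc : R.card = n := by
    rw [hR, Multiset.toFinset_card_of_nodup hnodup, hcard]
  let e : Fin n ≃ R := (R.equivFinOfCardEq hRc).symm
  have hl : (G.leadingCoeff : F) ≠ 0 := by exact_mod_cast leadingCoeff_ne_zero.2 hG
  have hprod : ∀ f : ℤ[X], f.natDegree ≤ r → ((resultant f G r n : ℤ) : F) =
      ((-1) ^ (r * n) * (G.leadingCoeff : F) ^ r) * ∏ j : Fin n, fm r f ((e j : F), 1) := by
    intro f hf
    have h3 := resultant_eq_prod_eval (G.map (Int.castRingHom F)) (f.map (Int.castRingHom F)) r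
      (natDegree_map_le.trans hf) (IsAlgClosed.splits _)
    rw [resultant_map_map, natDegree_map_eq_of_injective hinj,
      leadingCoeff_map_of_injective hinj] at h3
    have h4 : resultant f G r n = (-1) ^ (r * n) * resultant G f n r := resultant_comm f G r n
    rw [h4]
    push_cast
    have h5 : ((resultant G f n r : ℤ) : F) = (G.leadingCoeff : F) ^ r *
        ((G.map (Int.castRingHom F)).roots.map (f.map (Int.castRingHom F)).eval).prod := by
      simpa using h3
    rw [h5]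
    have h6 : ∏ j : Fin n, fm r f ((e j : F), 1) =
        ((G.map (Int.castRingHom F)).roots.map (f.map (Int.castRingHom F)).eval).prod := by
      have h7 : ∀ j : Fin n, fm r f ((e j : F), 1) = (f.map (Int.castRingHom F)).eval (e j : F) :=
        fun j => fm_one r f hf _
      rw [Finset.prod_congr rfl fun j _ => h7 j]
      rw [Equiv.prod_comp e (fun z : R => (f.map (Int.castRingHom F)).eval (z : F)),
        Finset.prod_coe_sort R (fun z => (f.map (Int.castRingHom F)).eval z)]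
      rw [Finset.prod_eq_multiset_prod, hR, Multiset.toFinset_val,
        Multiset.dedup_eq_self.2 hnodup]
    rw [h6]; ring
  have hne : ∀ i j : Fin n, i ≠ j → (e i : F) ≠ (e j : F) := fun i j hij h =>
    hij (e.injective (Subtype.ext h))
  rcases Nat.lt_or_ge n q with hlt | hge
  · obtain rfl : q = n + 1 := by omega
    refine ⟨Fin.cons ((1 : F), (0 : F)) (fun j => ((e j : F), 1)), ?_,
      (-1) ^ (r * n) * (G.leadingCoeff : F) ^ r, mul_ne_zero (pow_ne_zero _ (neg_ne_zero.2 one_ne_zero)) (pow_ne_zero _ hl), ?_⟩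
    · intro i j
      refine Fin.cases ?_ (fun i => ?_) i
      · refine Fin.cases ?_ (fun j => ?_) j
        · intro h; exact absurd rfl h
        · intro _; simp
      · refine Fin.cases ?_ (fun j => ?_) j
        · intro _; simp
        · intro h
          simp only [Fin.cons_succ, mul_one]
          exact hne i j fun h' => h (by rw [h'])
    · intro f hf
      rw [resultant_add_right_deg f G r n 1 le_rfl, Fin.prod_univ_succ]
      push_cast
      rw [hprod f hf]
      simp only [Fin.cons_zero, Fin.cons_succ, fm_inf, pow_one]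
      ring
  · obtain rfl : q = n := le_antisymm hge h1
    refine ⟨fun j => ((e j : F), 1), fun i j hij => ?_,
      (-1) ^ (r * n) * (G.leadingCoeff : F) ^ r, mul_ne_zero (pow_ne_zero _ (neg_ne_zero.2 one_ne_zero)) (pow_ne_zero _ hl), hprod⟩
    simpa using hne i j hij

end points

end Pool.Agent.H990R4.VJ.Red
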