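import Mathlib
import Pool.Agent.H990R4.VJ.N

set_option autoImplicit false

namespace Pool.Agent.H990R4.VJ.Red

open Polynomial Finset

lemma norm_int_padic (p : ℕ) [Fact p.Prime] (n : ℤ) :
    ‖(n : PadicAlgCl p)‖ = ‖(n : ℚ_[p])‖ := by
  rw [← PadicAlgCl.norm_extends p (n : ℚ_[p])]
  congr 1

theorem padic_abs (p : ℕ) [hp : Fact p.Prime] (G : ℤ[X]) (hG : G ≠ 0)
    (hsep : (G.map (Int.castRingHom ℚ)).Separable) (r q : ℕ) (hq : 1 ≤ q)
    (h1 : G.natDegree ≤ q) (h2 : q ≤ G.natDegree + 1) (E : ℤ[X]) (hEd : E.natDegree ≤ r)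
    (hE : resultant E G r q ≠ 0) :
    ∃ (v : ℕ) (idx : ℤ[X] → Fin q), ∀ f f' : ℤ[X], f.natDegree ≤ r → f'.natDegree ≤ r →
      (∃ i : Fin (r + 1), ¬ (p : ℤ) ∣ f.coeff i) → (∃ i : Fin (r + 1), ¬ (p : ℤ) ∣ f'.coeff i) →
      ∀ (k t : ℕ) (a : ℤ), (p : ℤ) ^ k ∣ resultant f G r q → (p : ℤ) ^ k ∣ resultant f' G r q →
      idx f = idx f' → f - f' = C a * E → (∀ t' < t, v + t' * min q r < k) → (p : ℤ) ^ t ∣ a := by
  classical
  set m := min q r with hm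
  obtain ⟨P, hdist, c, hc, hres⟩ := exists_points (F := PadicAlgCl p) G hG hsep q h1 h2 r
  obtain ⟨Cn, hCn, hnear⟩ := exists_near r q hq P hdist
  have hp0 : (0 : ℝ) < p := by exact_mod_cast hp.out.pos
  have hp1 : (1 : ℝ) < p := by exact_mod_cast hp.out.one_lt
  have hc0 : 0 < ‖c‖ := norm_pos_iff.2 hc
  have hE0 : ∀ j, fm r E (P j) ≠ 0 := by
    intro j h0
    have h3 := hres E hEd
    rw [Finset.prod_eq_zero (Finset.mem_univ j) h0, mul_zero] at h3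
    exact hE (by exact_mod_cast h3)
  have hstep : ∀ f : ℤ[X], ∃ j, f.natDegree ≤ r → (∃ i : Fin (r + 1), ¬ (p : ℤ) ∣ f.coeff i) →
      ‖fm r f (P j)‖ ^ m ≤ Cn / ‖c‖ * ‖((resultant f G r q : ℤ) : PadicAlgCl p)‖ := by
    intro f
    by_cases h : f.natDegree ≤ r ∧ (∃ i : Fin (r + 1), ¬ (p : ℤ) ∣ f.coeff i)
    · obtain ⟨j, hj⟩ := hnear f 1 one_pos (fun i => by
        rw [norm_int_padic]; exact Padic.norm_int_le_one _) (by
        obtain ⟨i, hi⟩ := h.2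
        refine ⟨i, ?_⟩
        rw [norm_int_padic]
        by_contra hcon
        push Not at hcon
        exact hi (Padic.norm_intCast_lt_one_iff.1 hcon))
      refine ⟨j, fun _ _ => ?_⟩
      rw [one_pow, mul_one] at hj
      rw [hres f h.1, norm_mul, norm_prod]
      calc ‖fm r f (P j)‖ ^ m ≤ Cn * ∏ j, ‖fm r f (P j)‖ := hj
        _ = _ := by field_simp
    · exact ⟨⟨0, hq⟩, fun h3 h4 => absurd ⟨h3, h4⟩ h⟩
  choose idx hidx using hstep
  set D : ℝ := 1 + Cn / ‖c‖ * ∑ j, (‖fm r E (P j)‖ ^ m)⁻¹ with hD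
  obtain ⟨v, hv⟩ := pow_unbounded_of_one_lt D hp1
  refine ⟨v, idx, fun f f' hf hf' hpf hpf' k t a hk hk' hij hff ht => ?_⟩
  rcases t with _ | t
  · simp
  by_contra hcon
  have hkn : ∀ n : ℤ, (p : ℤ) ^ k ∣ n → ‖(n : PadicAlgCl p)‖ ≤ ((p : ℝ) ^ k)⁻¹ := by
    intro n hn
    rw [norm_int_padic]
    have h3 := (Padic.norm_int_le_pow_iff_dvd (p := p) n k).2 (by exact_mod_cast hn)
    rw [zpow_neg, zpow_natCast] at h3
    exact h3
  have e1 : ‖fm r f (P (idx f))‖ ^ m ≤ Cn / ‖c‖ * ((p : ℝ) ^ k)⁻¹ :=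
    (hidx f hf hpf).trans (mul_le_mul_of_nonneg_left (hkn _ hk) (by positivity))
  have e2 : ‖fm r f' (P (idx f))‖ ^ m ≤ Cn / ‖c‖ * ((p : ℝ) ^ k)⁻¹ := by
    rw [hij]
    exact (hidx f' hf' hpf').trans (mul_le_mul_of_nonneg_left (hkn _ hk') (by positivity))
  set j := idx f with hj
  have e3 : ‖(a : PadicAlgCl p)‖ * ‖fm r E (P j)‖ ≤ max ‖fm r f (P j)‖ ‖fm r f' (P j)‖ := by
    rw [← norm_mul, ← fm_sub r f f' E a hff]
    have h4 := IsUltrametricDist.norm_add_le_max (fm r f (P j)) (-fm r f' (P j))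
    rwa [← sub_eq_add_neg, norm_neg] at h4
  have e4 : (‖(a : PadicAlgCl p)‖ * ‖fm r E (P j)‖) ^ m ≤ Cn / ‖c‖ * ((p : ℝ) ^ k)⁻¹ := by
    refine (pow_le_pow_left₀ (by positivity) e3 m).trans ?_
    rcases max_choice ‖fm r f (P j)‖ ‖fm r f' (P j)‖ with h | h <;> rw [h]
    · exact e1
    · exact e2
  have hEj : 0 < ‖fm r E (P j)‖ ^ m := pow_pos (norm_pos_iff.2 (hE0 j)) _
  have e5 : ‖(a : PadicAlgCl p)‖ ^ m ≤ D * ((p : ℝ) ^ k)⁻¹ := by
    rw [mul_pow] at e4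
    have h3 : (‖fm r E (P j)‖ ^ m)⁻¹ ≤ ∑ j, (‖fm r E (P j)‖ ^ m)⁻¹ :=
      Finset.single_le_sum (f := fun j => (‖fm r E (P j)‖ ^ m)⁻¹) (fun _ _ => by positivity)
        (Finset.mem_univ j)
    calc ‖(a : PadicAlgCl p)‖ ^ m
        = (‖(a : PadicAlgCl p)‖ ^ m * ‖fm r E (P j)‖ ^ m) * (‖fm r E (P j)‖ ^ m)⁻¹ := by
          rw [mul_assoc, mul_inv_cancel₀ hEj.ne', mul_one]
      _ ≤ (Cn / ‖c‖ * ((p : ℝ) ^ k)⁻¹) * (∑ j, (‖fm r E (P j)‖ ^ m)⁻¹) :=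
          mul_le_mul e4 h3 (by positivity) (by positivity)
      _ = (Cn / ‖c‖ * (∑ j, (‖fm r E (P j)‖ ^ m)⁻¹)) * ((p : ℝ) ^ k)⁻¹ := by ring
      _ ≤ D * ((p : ℝ) ^ k)⁻¹ := by
          refine mul_le_mul_of_nonneg_right ?_ (by positivity)
          rw [hD]; linarith
  have e6 : ((p : ℝ) ^ t)⁻¹ ≤ ‖(a : PadicAlgCl p)‖ := by
    rw [norm_int_padic]
    have h2 := hcon
    rw [← Padic.norm_int_le_pow_iff_dvd, Padic.norm_le_pow_iff_norm_lt_pow_add_one,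
      not_lt] at h2
    push_cast at h2
    rw [show (-((t : ℤ) + 1) + 1) = -(t : ℤ) by ring, zpow_neg, zpow_natCast] at h2
    exact h2
  have e7 : (((p : ℝ) ^ t)⁻¹) ^ m ≤ D * ((p : ℝ) ^ k)⁻¹ :=
    (pow_le_pow_left₀ (by positivity) e6 m).trans e5
  have e8 : (((p : ℝ) ^ t)⁻¹) ^ m < (p : ℝ) ^ v * ((p : ℝ) ^ k)⁻¹ :=
    lt_of_le_of_lt e7 (mul_lt_mul_of_pos_right hv (by positivity))
  rw [inv_pow, ← pow_mul, ← div_eq_mul_inv, inv_eq_one_div, div_lt_div_iff₀ (by positivity)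
    (by positivity), one_mul, ← pow_add] at e8
  have e9 := (pow_lt_pow_iff_right₀ hp1).1 e8
  have e10 := ht t (Nat.lt_succ_self t)
  omega

theorem real_abs (G : ℤ[X]) (hG : G ≠ 0)
    (hsep : (G.map (Int.castRingHom ℚ)).Separable) (r q : ℕ) (hq : 1 ≤ q)
    (h1 : G.natDegree ≤ q) (h2 : q ≤ G.natDegree + 1) (E : ℤ[X]) (hEd : E.natDegree ≤ r)
    (hE : resultant E G r q ≠ 0) :
    ∃ (D : ℝ) (idx : ℤ[X] → Fin q), 0 < D ∧ ∀ f f' : ℤ[X], f ≠ 0 → f' ≠ 0 → f.natDegree ≤ r →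
      f'.natDegree ≤ r → ∀ (T : ℝ) (a : ℤ), 0 ≤ T →
      |((resultant f G r q : ℤ) : ℝ)| ≤ T * mm f ^ (q - min q r) →
      |((resultant f' G r q : ℤ) : ℝ)| ≤ T * mm f' ^ (q - min q r) →
      idx f = idx f' → f - f' = C a * E → |(a : ℝ)| ^ (min q r) ≤ D * T := by
  classical
  set m := min q r with hm
  obtain ⟨P, hdist, c, hc, hres⟩ := exists_points (F := ℂ) G hG hsep q h1 h2 r
  obtain ⟨Cn, hCn, hnear⟩ := exists_near r q hq P hdist
  have hc0 : 0 < ‖c‖ := norm_pos_iff.2 hc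
  have hE0 : ∀ j, fm r E (P j) ≠ 0 := by
    intro j h0
    have h3 := hres E hEd
    rw [Finset.prod_eq_zero (Finset.mem_univ j) h0, mul_zero] at h3
    exact hE (by exact_mod_cast h3)
  have hstep : ∀ f : ℤ[X], ∃ j, f ≠ 0 → f.natDegree ≤ r → ∀ T : ℝ, 0 ≤ T →
      |((resultant f G r q : ℤ) : ℝ)| ≤ T * mm f ^ (q - m) →
      ‖fm r f (P j)‖ ^ m ≤ (Cn / ‖c‖ * (r + 1) ^ (q - m)) * T := by
    intro f
    by_cases h : f ≠ 0 ∧ f.natDegree ≤ r
    · obtain ⟨hf, hd⟩ := h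
      obtain ⟨i₀, _, hi₀⟩ := Finset.exists_max_image (Finset.univ : Finset (Fin (r + 1)))
        (fun i => ‖(f.coeff i : ℂ)‖) Finset.univ_nonempty
      set s : ℝ := ‖(f.coeff i₀ : ℂ)‖ with hs
      have hMm : mm f ≤ (r + 1) * s := by
        have h1 := mahlerMeasure_le_sum_norm_coeff (f.map (Int.castRingHom ℂ))
        rw [sum_over_range' _ (by simp) (r + 1) (by
          rw [natDegree_map_eq_of_injective (RingHom.injective_int _)]; omega)] at h1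
        refine h1.trans ?_
        have h2 : ∑ a ∈ range (r + 1), ‖(f.map (Int.castRingHom ℂ)).coeff a‖ ≤
            ∑ _a ∈ range (r + 1), s := by
          refine Finset.sum_le_sum fun a ha => ?_
          rw [coeff_map]
          exact hi₀ ⟨a, Finset.mem_range.1 ha⟩ (Finset.mem_univ _)
        rw [Finset.sum_const, Finset.card_range, nsmul_eq_mul] at h2
        push_cast at h2
        exact h2
      have hM1 : 1 ≤ mm f := one_le_mm hf
      have hr1 : (0 : ℝ) < r + 1 := by positivity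
      have hs0 : 0 < s := by
        by_contra hcon
        push Not at hcon
        nlinarith
      obtain ⟨j, hj⟩ := hnear f s hs0 (fun i => hi₀ i (Finset.mem_univ _)) ⟨i₀, le_refl _⟩
      refine ⟨j, fun _ _ T hT hR => ?_⟩
      have h3 : ∏ j, ‖fm r f (P j)‖ = |((resultant f G r q : ℤ) : ℝ)| / ‖c‖ := by
        have h4 := congrArg norm (hres f hd)
        rw [norm_mul, norm_prod, Complex.norm_intCast] at h4
        rw [h4]; field_simp
      rw [h3] at hj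
      have h5 : mm f ^ (q - m) ≤ (r + 1) ^ (q - m) * s ^ (q - m) := by
        rw [← mul_pow]
        exact pow_le_pow_left₀ (by linarith) hMm _
      have h6 : ‖fm r f (P j)‖ ^ m * s ^ (q - m) ≤
          ((Cn / ‖c‖ * (r + 1) ^ (q - m)) * T) * s ^ (q - m) := by
        refine hj.trans ?_
        calc Cn * (|((resultant f G r q : ℤ) : ℝ)| / ‖c‖)
            = Cn / ‖c‖ * |((resultant f G r q : ℤ) : ℝ)| := by ring
          _ ≤ Cn / ‖c‖ * (T * ((r + 1) ^ (q - m) * s ^ (q - m))) :=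
              mul_le_mul_of_nonneg_left (hR.trans (mul_le_mul_of_nonneg_left h5 hT)) (by positivity)
          _ = _ := by ring
      exact le_of_mul_le_mul_right h6 (by positivity)
    · exact ⟨⟨0, hq⟩, fun h3 h4 => absurd ⟨h3, h4⟩ h⟩
  choose idx hidx using hstep
  refine ⟨2 ^ m * (Cn / ‖c‖ * (r + 1) ^ (q - m)) * (1 + ∑ j, (‖fm r E (P j)‖ ^ m)⁻¹), idx,
    by positivity, fun f f' hf hf' hd hd' T a hT hR hR' hij hff => ?_⟩
  have e1 := hidx f hf hd T hT hR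
  have e2 := hidx f' hf' hd' T hT hR'
  rw [← hij] at e2
  set j := idx f with hj
  set B : ℝ := (Cn / ‖c‖ * (r + 1) ^ (q - m)) * T with hB
  have e3 : |(a : ℝ)| * ‖fm r E (P j)‖ ≤ 2 * max ‖fm r f (P j)‖ ‖fm r f' (P j)‖ := by
    have h3 : |(a : ℝ)| = ‖(a : ℂ)‖ := by rw [Complex.norm_intCast]
    rw [h3, ← norm_mul, ← fm_sub r f f' E a hff]
    refine (norm_sub_le _ _).trans ?_
    have h4 := le_max_left ‖fm r f (P j)‖ ‖fm r f' (P j)‖
    have h5 := le_max_right ‖fm r f (P j)‖ ‖fm r f' (P j)‖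
    linarith
  have e4 : (|(a : ℝ)| * ‖fm r E (P j)‖) ^ m ≤ 2 ^ m * B := by
    refine (pow_le_pow_left₀ (by positivity) e3 m).trans ?_
    rw [mul_pow]
    refine mul_le_mul_of_nonneg_left ?_ (by positivity)
    rcases max_choice ‖fm r f (P j)‖ ‖fm r f' (P j)‖ with h | h <;> rw [h]
    · exact e1
    · exact e2
  have hEj : 0 < ‖fm r E (P j)‖ ^ m := pow_pos (norm_pos_iff.2 (hE0 j)) _
  rw [mul_pow] at e4
  have h3 : (‖fm r E (P j)‖ ^ m)⁻¹ ≤ 1 + ∑ j, (‖fm r E (P j)‖ ^ m)⁻¹ := by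
    have := Finset.single_le_sum (f := fun j => (‖fm r E (P j)‖ ^ m)⁻¹)
      (fun _ _ => by positivity) (Finset.mem_univ j)
    linarith
  calc |(a : ℝ)| ^ m = (|(a : ℝ)| ^ m * ‖fm r E (P j)‖ ^ m) * (‖fm r E (P j)‖ ^ m)⁻¹ := by
        rw [mul_assoc, mul_inv_cancel₀ hEj.ne', mul_one]
    _ ≤ (2 ^ m * B) * (1 + ∑ j, (‖fm r E (P j)‖ ^ m)⁻¹) :=
        mul_le_mul e4 h3 (by positivity) (by positivity)
    _ = _ := by rw [hB]; ring

end Pool.Agent.H990R4.VJ.Red
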