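import Mathlib
import Pool.Agent.H990R4.VJ.E
import Pool.Agent.H990R4.VJ.O

set_option autoImplicit false

namespace Pool.Agent.H990R4.VJ.Red

open Polynomial Finset

/-- the count of forms on the lines, nearest points fixed -/
theorem count2 (r q : ℕ) (hr : 1 ≤ r) (hq : 1 ≤ q) (G : ℤ[X]) (hG : G ≠ 0)
    (hsep : (G.map (Int.castRingHom ℚ)).Separable) (h1 : G.natDegree ≤ q)
    (h2 : q ≤ G.natDegree + 1) (S : Finset ℕ) (hS : ∀ p ∈ S, p.Prime) :
    ∃ (W : ℕ) (D : ℝ), 0 < D ∧ ∀ (N K : ℕ) (Y : ℝ), 0 < Y → ∀ Es : Finset ℤ[X],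
      (∀ f ∈ Es, f ≠ 0 ∧ f.natDegree ≤ r ∧ (∀ i, |f.coeff i| ≤ (N : ℤ)) ∧
        (∀ p ∈ S, ∃ i : Fin (r + 1), ¬ (p : ℤ) ∣ f.coeff i) ∧
        (∀ p ∈ S, padicValInt p (resultant f G r q) ≤ K) ∧
        |((resultant f G r q : ℤ) : ℝ)| ≤
          (Y * ∏ p ∈ S, (p : ℝ) ^ padicValInt p (resultant f G r q)) * mm f ^ (q - min q r)) →
      (Es.card : ℝ) ≤ (D * Y ^ (1 / (min q r : ℕ) : ℝ) + 1) *
        ((2 * (W * N) + 1) ^ r * ((K + 1) ^ S.card * ((q : ℝ) ^ S.card * q))) := by
  classical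
  obtain ⟨c₀, hc₀⟩ := exists_eval_ne_zero G hG
  set m := min q r with hm
  have hm1 : 1 ≤ m := le_min hq hr
  have hm0 : (0 : ℝ) < m := by exact_mod_cast hm1
  set E : ℤ[X] := (X - C c₀) ^ r with hE
  have hEm : E.Monic := (monic_X_sub_C c₀).pow r
  have hEd : E.natDegree = r := by
    rw [hE, natDegree_pow, natDegree_X_sub_C, mul_one]
  have hEr : E.coeff r = 1 := by
    have := hEm.coeff_natDegree
    rwa [hEd] at this
  have hER : resultant E G r q ≠ 0 := by
    rw [hE, resultant_X_sub_C_pow_left c₀ G r q h1]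
    exact pow_ne_zero _ hc₀
  have hpad : ∀ p : S, ∃ (v : ℕ) (idx : ℤ[X] → Fin q), ∀ f f' : ℤ[X], f.natDegree ≤ r →
      f'.natDegree ≤ r →
      (∃ i : Fin (r + 1), ¬ ((p : ℕ) : ℤ) ∣ f.coeff i) →
      (∃ i : Fin (r + 1), ¬ ((p : ℕ) : ℤ) ∣ f'.coeff i) →
      ∀ (k t : ℕ) (a : ℤ), ((p : ℕ) : ℤ) ^ k ∣ resultant f G r q →
      ((p : ℕ) : ℤ) ^ k ∣ resultant f' G r q →
      idx f = idx f' → f - f' = C a * E → (∀ t' < t, v + t' * m < k) → ((p : ℕ) : ℤ) ^ t ∣ a := by
    intro p
    have : Fact (p : ℕ).Prime := ⟨hS p p.2⟩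
    exact padic_abs (p : ℕ) G hG hsep r q hq h1 h2 E hEd.le hER
  choose v₀ idx hidx using hpad
  obtain ⟨Dr, idxR, hDr, hidxR⟩ := real_abs G hG hsep r q hq h1 h2 E hEd.le hER
  set v : ℕ → ℕ := fun p => if h : p ∈ S then v₀ ⟨p, h⟩ else 0 with hv
  have hvp : 0 < ∏ p ∈ S, (p : ℝ) ^ v p :=
    Finset.prod_pos fun p hp => pow_pos (by exact_mod_cast (hS p hp).pos) _
  refine ⟨1 + ∑ i ∈ range r, (E.coeff i).natAbs, (Dr * ∏ p ∈ S, (p : ℝ) ^ v p) ^ (1 / m : ℝ),
    by positivity, fun N K Y hY Es hEs => ?_⟩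
  set W : ℕ := 1 + ∑ i ∈ range r, (E.coeff i).natAbs with hW
  set w : ℝ := (Dr * ∏ p ∈ S, (p : ℝ) ^ v p) ^ (1 / m : ℝ) * Y ^ (1 / m : ℝ) with hw
  have hw0 : 0 ≤ w := by positivity
  have hwm : w ^ m = (Dr * ∏ p ∈ S, (p : ℝ) ^ v p) * Y := by
    rw [hw, ← Real.mul_rpow (by positivity) hY.le, ← Real.rpow_natCast, ← Real.rpow_mul (by positivity),
      one_div, inv_mul_cancel₀ hm0.ne', Real.rpow_one]
  set Φ : ℤ[X] → (Fin r → ℤ) × ((S → ℕ) × ((S → Fin q) × Fin q)) := fun f =>
    (fun i => f.coeff i - f.coeff r * E.coeff i, fun p => padicValInt p (resultant f G r q),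
      fun p => idx p f, idxR f) with hΦ
  have himg : Es.image Φ ⊆ (Fintype.piFinset fun _ : Fin r => Finset.Icc (-((W * N : ℕ) : ℤ))
      ((W * N : ℕ) : ℤ)) ×ˢ ((Fintype.piFinset fun _ : S => Finset.range (K + 1)) ×ˢ
      ((Finset.univ : Finset (S → Fin q)) ×ˢ (Finset.univ : Finset (Fin q)))) := by
    intro y hy
    obtain ⟨f, hf, rfl⟩ := Finset.mem_image.1 hy
    obtain ⟨g0, g1, g2, g3, g4, g5⟩ := hEs f hf
    rw [Finset.mem_product, Finset.mem_product, Fintype.mem_piFinset, Fintype.mem_piFinset]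
    refine ⟨fun i => ?_, fun p => ?_, ?_⟩
    · rw [Finset.mem_Icc, ← abs_le]
      show |f.coeff i - f.coeff r * E.coeff i| ≤ _
      have h5 : (E.coeff i).natAbs ≤ ∑ i ∈ range r, (E.coeff i).natAbs :=
        Finset.single_le_sum (f := fun i => (E.coeff i).natAbs) (fun _ _ => Nat.zero_le _)
          (Finset.mem_range.2 i.2)
      have h6 : |E.coeff i| ≤ ((∑ i ∈ range r, (E.coeff i).natAbs : ℕ) : ℤ) := by
        rw [Int.abs_eq_natAbs]; exact_mod_cast h5
      have h7 : |f.coeff r * E.coeff i| ≤ (N : ℤ) * ((∑ i ∈ range r, (E.coeff i).natAbs : ℕ) : ℤ) := by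
        rw [abs_mul]
        exact mul_le_mul (g2 r) h6 (abs_nonneg _) (by positivity)
      have h8 := abs_sub (f.coeff i) (f.coeff r * E.coeff i)
      have h9 := g2 i
      rw [hW]
      push_cast at h7 ⊢
      nlinarith
    · rw [Finset.mem_range]
      exact Nat.lt_succ_of_le (g4 p.1 p.2)
    · simp
  have hcimg : (Es.image Φ).card ≤
      (2 * (W * N) + 1) ^ r * ((K + 1) ^ S.card * (q ^ S.card * q)) := by
    refine (Finset.card_le_card himg).trans ?_
    rw [Finset.card_product, Finset.card_product, Finset.card_product, Fintype.card_piFinset,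
      Fintype.card_piFinset, Finset.prod_const, Finset.prod_const, Finset.card_univ,
      Finset.card_univ, Finset.card_univ, Finset.card_univ, Fintype.card_fin, Int.card_Icc,
      Finset.card_range, Fintype.card_coe, Fintype.card_fun, Fintype.card_fin, Fintype.card_coe]
    apply Nat.mul_le_mul_right
    apply Nat.pow_le_pow_left
    omega
  have hfib : ∀ y ∈ Es.image Φ, (Es.filter fun f => Φ f = y).card ≤ ⌊w + 1⌋₊ := by
    intro y hy
    obtain ⟨g, hg, rfl⟩ := Finset.mem_image.1 hy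
    apply Nat.le_floor
    set κ : ℕ → ℕ := fun p => padicValInt p (resultant g G r q) with hκ
    choose t ht1 ht2 using fun p => exists_m m (κ p) (v p) hm1
    set M : ℕ := ∏ p ∈ S, p ^ t p with hM
    have hM0 : 0 < M := Finset.prod_pos fun p hp => pow_pos (hS p hp).pos _
    have hMR : (0 : ℝ) < M := by exact_mod_cast hM0
    have hprod : ∏ p ∈ S, (p : ℝ) ^ κ p ≤ (∏ p ∈ S, (p : ℝ) ^ v p) * (M : ℝ) ^ m := by
      have h2 : ∏ p ∈ S, p ^ κ p ≤ (∏ p ∈ S, p ^ v p) * M ^ m := by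
        rw [hM, ← Finset.prod_pow, ← Finset.prod_mul_distrib]
        refine Finset.prod_le_prod' fun p hp => ?_
        rw [← pow_mul, ← pow_add]
        exact Nat.pow_le_pow_right (hS p hp).pos (ht1 p)
      exact_mod_cast h2
    have hdiff : ∀ f ∈ Es.filter (fun f => Φ f = Φ g), ∀ f' ∈ Es.filter (fun f => Φ f = Φ g),
        f - f' = C (f.coeff r - f'.coeff r) * E := by
      intro f hf f' hf'
      rw [Finset.mem_filter] at hf hf'
      have hfd := (hEs f hf.1).2.1
      have hfd' := (hEs f' hf'.1).2.1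
      have hff : Φ f = Φ f' := hf.2.trans hf'.2.symm
      ext i
      rw [coeff_sub, coeff_C_mul]
      rcases lt_trichotomy i r with hi | hi | hi
      · have := congrFun (congrArg Prod.fst hff) ⟨i, hi⟩
        simp only [hΦ] at this
        linarith
      · subst hi
        rw [hEr]; ring
      · rw [coeff_eq_zero_of_natDegree_lt (lt_of_le_of_lt hfd hi),
          coeff_eq_zero_of_natDegree_lt (lt_of_le_of_lt hfd' hi),
          coeff_eq_zero_of_natDegree_lt (lt_of_le_of_lt hEd.le hi)]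
        ring
    have hval : ∀ f ∈ Es.filter (fun f => Φ f = Φ g), ∀ p ∈ S,
        padicValInt p (resultant f G r q) = κ p := by
      intro f hf p hp
      rw [Finset.mem_filter] at hf
      exact congrFun (congrArg (fun y => y.2.1) hf.2) ⟨p, hp⟩
    have hpair : ∀ f ∈ Es.filter (fun f => Φ f = Φ g), ∀ f' ∈ Es.filter (fun f => Φ f = Φ g),
        (M : ℤ) ∣ f.coeff r - f'.coeff r ∧ |((f.coeff r - f'.coeff r : ℤ) : ℝ)| ≤ w * M := by
      intro f hf f' hf'
      have hd := hdiff f hf f' hf'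
      have hvf := hval f hf
      have hvf' := hval f' hf'
      rw [Finset.mem_filter] at hf hf'
      obtain ⟨g0, g1, g2, g3, g4, g5⟩ := hEs f hf.1
      obtain ⟨g0', g1', g2', g3', g4', g5'⟩ := hEs f' hf'.1
      have hff : Φ f = Φ f' := hf.2.trans hf'.2.symm
      constructor
      · rw [hM]
        push_cast
        refine Finset.prod_dvd_of_coprime ?_ fun p hp => ?_
        · intro p hp p' hp' hne
          have := (Nat.coprime_primes (hS p hp) (hS p' hp')).2 hne
          exact (Nat.isCoprime_iff_coprime.2 this).pow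
        · have hfact : Fact p.Prime := ⟨hS p hp⟩
          refine hidx ⟨p, hp⟩ f f' g1 g1' (g3 p hp) (g3' p hp) (κ p) (t p) _ ?_ ?_ ?_ hd ?_
          · rw [← hvf p hp]; exact padicValInt_dvd _
          · rw [← hvf' p hp]; exact padicValInt_dvd _
          · exact congrFun (congrArg (fun y => y.2.2.1) hff) ⟨p, hp⟩
          · intro t' ht'
            have := ht2 p t' ht'
            simp only [hv, hp, dif_pos] at this
            exact this
      · have hTe : (Y * ∏ p ∈ S, (p : ℝ) ^ padicValInt p (resultant f G r q)) =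
            Y * ∏ p ∈ S, (p : ℝ) ^ κ p := by
          congr 1
          exact Finset.prod_congr rfl fun p hp => by rw [hvf p hp]
        have hTe' : (Y * ∏ p ∈ S, (p : ℝ) ^ padicValInt p (resultant f' G r q)) =
            Y * ∏ p ∈ S, (p : ℝ) ^ κ p := by
          congr 1
          exact Finset.prod_congr rfl fun p hp => by rw [hvf' p hp]
        rw [hTe] at g5
        rw [hTe'] at g5'
        have h3 := hidxR f f' g0 g0' g1 g1' (Y * ∏ p ∈ S, (p : ℝ) ^ κ p)
          (f.coeff r - f'.coeff r) (by positivity) g5 g5'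
          (congrArg (fun y => y.2.2.2) hff) hd
        have h4 : |((f.coeff r - f'.coeff r : ℤ) : ℝ)| ^ m ≤ (w * M) ^ m := by
          refine h3.trans ?_
          rw [mul_pow, hwm]
          have h5 := mul_le_mul_of_nonneg_left hprod (show 0 ≤ Dr * Y by positivity)
          calc Dr * (Y * ∏ p ∈ S, (p : ℝ) ^ κ p) = Dr * Y * ∏ p ∈ S, (p : ℝ) ^ κ p := by ring
            _ ≤ _ := h5
            _ = _ := by ring
        exact (pow_le_pow_iff_left₀ (abs_nonneg _) (by positivity) (by omega)).1 h4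
    have hgmem : g ∈ Es.filter (fun f => Φ f = Φ g) := Finset.mem_filter.2 ⟨hg, rfl⟩
    obtain ⟨g₁, hg₁, hmin⟩ := Finset.exists_min_image (Es.filter fun f => Φ f = Φ g)
      (fun f => f.coeff r) ⟨g, hgmem⟩
    have hinj : Set.InjOn (fun f : ℤ[X] => (f.coeff r - g₁.coeff r) / (M : ℤ))
        ((Es.filter fun f => Φ f = Φ g) : Set ℤ[X]) := by
      intro f hf f' hf' hff
      have hf := Finset.mem_coe.1 hf
      have hf' := Finset.mem_coe.1 hf'
      have e1 := Int.ediv_mul_cancel (hpair f hf g₁ hg₁).1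
      have e2 := Int.ediv_mul_cancel (hpair f' hf' g₁ hg₁).1
      have hff' : (f.coeff r - g₁.coeff r) / (M : ℤ) = (f'.coeff r - g₁.coeff r) / (M : ℤ) := hff
      rw [hff'] at e1
      have e3 : f.coeff r = f'.coeff r := by linarith
      have e4 := hdiff f hf f' hf'
      rw [e3, sub_self, C_0, zero_mul] at e4
      exact sub_eq_zero.1 e4
    have hsub : (Es.filter fun f => Φ f = Φ g).image
        (fun f : ℤ[X] => (f.coeff r - g₁.coeff r) / (M : ℤ)) ⊆ Finset.Icc 0 ⌊w⌋ := by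
      intro z hz
      obtain ⟨f, hf, rfl⟩ := Finset.mem_image.1 hz
      obtain ⟨hd, hle⟩ := hpair f hf g₁ hg₁
      obtain ⟨b, hb⟩ := hd
      have hMz : (0 : ℤ) < M := by exact_mod_cast hM0
      have hmin' := hmin f hf
      rw [hb, Int.mul_ediv_cancel_left _ hMz.ne', Finset.mem_Icc]
      rw [hb] at hle
      push_cast at hle
      rw [abs_mul, abs_of_pos hMR] at hle
      constructor
      · by_contra hneg
        push Not at hneg
        nlinarith
      · rw [Int.le_floor]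
        have h6 : |(b : ℝ)| ≤ w := by
          rw [mul_comm] at hle
          exact le_of_mul_le_mul_right hle hMR
        exact (le_abs_self _).trans h6
    rw [← Finset.card_image_of_injOn hinj]
    have h7 := Finset.card_le_card hsub
    rw [Int.card_Icc] at h7
    have hfl : (0 : ℤ) ≤ ⌊w⌋ := Int.floor_nonneg.2 hw0
    have h8 : (((⌊w⌋ + 1 - 0).toNat : ℕ) : ℝ) ≤ w + 1 := by
      have h9 : (((⌊w⌋ + 1 - 0).toNat : ℕ) : ℤ) = ⌊w⌋ + 1 := by
        rw [Int.toNat_of_nonneg (by omega)]; ring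
      have h10 : (((⌊w⌋ + 1 - 0).toNat : ℕ) : ℝ) = (⌊w⌋ : ℝ) + 1 := by
        have := congrArg (Int.cast : ℤ → ℝ) h9
        push_cast at this
        exact this
      rw [h10]
      have := Int.floor_le w
      linarith
    refine le_trans ?_ h8
    exact_mod_cast h7
  have h1' := Finset.card_le_mul_card_image Es ⌊w + 1⌋₊ hfib
  have h2' : (Es.card : ℝ) ≤ (⌊w + 1⌋₊ : ℝ) * ((Es.image Φ).card : ℝ) := by exact_mod_cast h1'
  have h3' : ((Es.image Φ).card : ℝ) ≤
      (2 * (W * N) + 1) ^ r * ((K + 1) ^ S.card * ((q : ℝ) ^ S.card * q)) := by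
    exact_mod_cast hcimg
  refine h2'.trans ?_
  exact mul_le_mul (Nat.floor_le (by positivity)) h3' (by positivity) (by positivity)

end Pool.Agent.H990R4.VJ.Red
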