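import Mathlib
import Pool.Agent.H990R4.VJ.Q

set_option autoImplicit false

namespace Pool.Agent.H990R4.VJ.Red

open Polynomial Finset

lemma prim_at (f : ℤ[X]) (r : ℕ) (hd : f.natDegree ≤ r) (hf : f.IsPrimitive) (p : ℕ)
    (hp : p.Prime) : ∃ i : Fin (r + 1), ¬ (p : ℤ) ∣ f.coeff i := by
  by_contra h
  push Not at h
  have h1 : C (p : ℤ) ∣ f := by
    rw [C_dvd_iff_dvd_coeff]
    intro i
    by_cases hi : i ≤ r
    · exact h ⟨i, by omega⟩
    · rw [coeff_eq_zero_of_natDegree_lt (by omega)]; exact dvd_zero _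
  have h2 := hf _ h1
  exact (Nat.prime_iff_prime_int.1 hp).not_unit h2

theorem count3 (r q : ℕ) (hr : 1 ≤ r) (hq : 1 ≤ q) (G : ℤ[X]) (hG : G ≠ 0)
    (hsep : (G.map (Int.castRingHom ℚ)).Separable) (h1 : G.natDegree ≤ q)
    (h2 : q ≤ G.natDegree + 1) (S : Finset ℕ) (hS : ∀ p ∈ S, p.Prime) (θ c δ : ℝ) (hθ : 0 ≤ θ)
    (hδ : 0 < δ) :
    ∃ C : ℝ, ∀ B : ℝ, 1 ≤ B → ∀ E : Finset ℂ,
      (∀ x ∈ E, ∃ f : ℤ[X], f ≠ 0 ∧ f.natDegree = r ∧ aeval x f = 0 ∧ mm f ≤ B ^ r ∧
        f.IsPrimitive ∧ resultant f G r q ≠ 0 ∧ |((resultant f G r q : ℤ) : ℝ)| ≤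
          ((Real.exp c * B ^ θ) * ∏ p ∈ S, (p : ℝ) ^ padicValInt p (resultant f G r q)) *
            mm f ^ (q - min q r)) →
      (E.card : ℝ) ≤ C * B ^ (θ / (min q r : ℕ) + (r : ℝ) * r + δ) := by
  classical
  obtain ⟨W, D, hD, hW⟩ := count2 r q hr hq G hG hsep h1 h2 S hS
  set m := min q r with hm
  have hm1 : 1 ≤ m := le_min hq hr
  have hq0 : (0 : ℝ) < m := by exact_mod_cast hm1
  set CG : ℝ := 1 + ∑ i ∈ range (q + 1), |(G.coeff i : ℝ)| with hCG
  have hCG1 : 1 ≤ CG := by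
    have : 0 ≤ ∑ i ∈ range (q + 1), |(G.coeff i : ℝ)| := Finset.sum_nonneg fun _ _ => abs_nonneg _
    linarith
  set σ : ℝ := δ / (S.card + 1) with hσ
  have hσ0 : 0 < σ := by positivity
  set Ca : ℝ := D * Real.exp c ^ (1 / m : ℝ) + 1 with hCa
  set Cb : ℝ := ((2 * (W * 2 ^ r) + 1 : ℝ)) ^ r with hCb
  set Cc : ℝ := (2 * (r * Real.log CG) + 2 * (r * q) / σ + 1) ^ S.card with hCc
  refine ⟨r * (Ca * (Cb * (Cc * ((q : ℝ) ^ S.card * q)))), fun B hB E hE => ?_⟩
  choose! f hf0 hfd hfx hfM hfp hfR hfb using hE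
  have hB0 : 0 < B := by linarith
  have hlCG : 0 ≤ Real.log CG := Real.log_nonneg hCG1
  have hlB : 0 ≤ Real.log B := Real.log_nonneg hB
  set N : ℕ := ⌊(2 : ℝ) ^ r * B ^ r⌋₊ with hN
  set K : ℕ := ⌊2 * (r * Real.log CG + r * q * Real.log B)⌋₊ with hK
  have hNle : (N : ℝ) ≤ 2 ^ r * B ^ r := Nat.floor_le (by positivity)
  have hKle : (K : ℝ) ≤ 2 * (r * Real.log CG + r * q * Real.log B) := Nat.floor_le (by positivity)
  set Y : ℝ := Real.exp c * B ^ θ with hY
  have hY0 : 0 < Y := by positivity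
  have key := hW N K Y hY0 (E.image f) (by
    intro g hg
    obtain ⟨x, hx, rfl⟩ := Finset.mem_image.1 hg
    refine ⟨hf0 x hx, (hfd x hx).le, fun i => ?_,
      fun p hp => prim_at (f x) r (hfd x hx).le (hfp x hx) p (hS p hp), fun p hp => ?_, hfb x hx⟩
    · have h1 := coeff_le (f x) i
      rw [hfd x hx] at h1
      have h2 : (|(f x).coeff i| : ℝ) ≤ 2 ^ r * B ^ r :=
        h1.trans (mul_le_mul_of_nonneg_left (hfM x hx) (by positivity))
      have h3 : ((f x).coeff i).natAbs ≤ N := by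
        apply Nat.le_floor
        rw [Nat.cast_natAbs]
        push_cast
        exact h2
      rw [Int.abs_eq_natAbs]
      exact_mod_cast h3
    · apply Nat.le_floor
      refine (padic_le p (hS p hp) _ (hfR x hx)).trans ?_
      have h1 := abs_res_le (f x) G q h1
      rw [hfd x hx] at h1
      have h2 : |((resultant (f x) G r q : ℤ) : ℝ)| ≤ CG ^ r * (B ^ r) ^ q := by
        refine h1.trans ?_
        refine mul_le_mul_of_nonneg_left ?_ (by positivity)
        exact pow_le_pow_left₀ (le_trans zero_le_one (one_le_mm (hf0 x hx))) (hfM x hx) _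
      have h3 := Real.log_le_log (abs_pos.2 (by exact_mod_cast hfR x hx)) h2
      rw [Real.log_mul (by positivity) (by positivity), Real.log_pow, ← pow_mul, Real.log_pow] at h3
      push_cast at h3
      linarith)
  -- points per polynomial
  have hcard : E.card ≤ r * (E.image f).card := by
    refine Finset.card_le_mul_card_image E r fun a ha => ?_
    obtain ⟨x₀, hx₀, rfl⟩ := Finset.mem_image.mp ha
    have h3 : (E.filter fun x => f x = f x₀) ⊆
        ((f x₀).map (Int.castRingHom ℂ)).roots.toFinset := by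
      intro x hx
      rw [Finset.mem_filter] at hx
      rw [Multiset.mem_toFinset, mem_roots']
      refine ⟨?_, ?_⟩
      · rw [Polynomial.map_ne_zero_iff (RingHom.injective_int _)]
        exact hf0 x₀ hx₀
      · have h5 := hfx x hx.1
        rw [hx.2] at h5
        rw [IsRoot.def, eval_map]
        rw [aeval_def] at h5
        exact h5
    refine (Finset.card_le_card h3).trans ((Multiset.toFinset_card_le _).trans ?_)
    refine (card_roots' _).trans ?_
    rw [natDegree_map_eq_of_injective (RingHom.injective_int _)]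
    exact (hfd x₀ hx₀).le
  have hcard' : (E.card : ℝ) ≤ r * ((E.image f).card : ℝ) := by exact_mod_cast hcard
  refine hcard'.trans ?_
  have hr0 : (0 : ℝ) ≤ r := Nat.cast_nonneg _
  -- the three factors
  have f1 : D * Y ^ (1 / m : ℝ) + 1 ≤ Ca * B ^ (θ / m) := by
    have h1 : Y ^ (1 / m : ℝ) = Real.exp c ^ (1 / m : ℝ) * B ^ (θ / m) := by
      rw [hY, Real.mul_rpow (by positivity) (by positivity), ← Real.rpow_mul hB0.le]
      congr 2
      ring
    have h2 : (1 : ℝ) ≤ B ^ (θ / m) := Real.one_le_rpow hB (by positivity)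
    rw [h1, hCa, add_mul, one_mul, ← mul_assoc]
    linarith
  have f2 : (2 * (W * N) + 1 : ℝ) ^ r ≤ Cb * B ^ ((r : ℝ) * r) := by
    have h1 : (1 : ℝ) ≤ B ^ r := one_le_pow₀ hB
    have h2 : (2 * (W * N) + 1 : ℝ) ≤ (2 * (W * 2 ^ r) + 1) * B ^ r := by
      have h3 : (W : ℝ) * N ≤ W * (2 ^ r * B ^ r) :=
        mul_le_mul_of_nonneg_left hNle (Nat.cast_nonneg _)
      nlinarith
    calc (2 * (W * N) + 1 : ℝ) ^ r ≤ ((2 * (W * 2 ^ r) + 1) * B ^ r) ^ r :=
          pow_le_pow_left₀ (by positivity) h2 _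
      _ = Cb * B ^ ((r : ℝ) * r) := by
          rw [mul_pow, hCb, ← pow_mul, ← Real.rpow_natCast B (r * r)]
          push_cast
          rfl
  have f3 : ((K : ℝ) + 1) ^ S.card ≤ Cc * B ^ δ := by
    have h1 : Real.log B ≤ B ^ σ / σ := Real.log_le_rpow_div hB0.le hσ0
    have h2 : (1 : ℝ) ≤ B ^ σ := Real.one_le_rpow hB hσ0.le
    have h3 : (K : ℝ) + 1 ≤ (2 * (r * Real.log CG) + 2 * (r * q) / σ + 1) * B ^ σ := by
      have h4 : (r : ℝ) * q * Real.log B ≤ r * q * (B ^ σ / σ) :=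
        mul_le_mul_of_nonneg_left h1 (by positivity)
      have h5 : (r : ℝ) * Real.log CG ≤ (r * Real.log CG) * B ^ σ :=
        le_mul_of_one_le_right (by positivity) h2
      calc (K : ℝ) + 1 ≤ 2 * ((r * Real.log CG) * B ^ σ + r * q * (B ^ σ / σ)) + B ^ σ := by linarith
        _ = _ := by ring
    calc ((K : ℝ) + 1) ^ S.card ≤ ((2 * (r * Real.log CG) + 2 * (r * q) / σ + 1) * B ^ σ) ^ S.card :=
          pow_le_pow_left₀ (by positivity) h3 _
      _ = Cc * B ^ (σ * S.card) := by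
          rw [mul_pow, hCc, ← Real.rpow_natCast (B ^ σ), ← Real.rpow_mul hB0.le]
      _ ≤ Cc * B ^ δ := by
          refine mul_le_mul_of_nonneg_left ?_ (by positivity)
          refine Real.rpow_le_rpow_of_exponent_le hB ?_
          rw [hσ, div_mul_eq_mul_div, div_le_iff₀ (by positivity)]
          nlinarith
  have hCa0 : 0 ≤ Ca := by positivity
  have hCb0 : 0 ≤ Cb := by positivity
  have hCc0 : 0 ≤ Cc := by positivity
  calc (r : ℝ) * ((E.image f).card : ℝ)
      ≤ r * ((D * Y ^ (1 / m : ℝ) + 1) *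
        ((2 * (W * N) + 1) ^ r * ((K + 1) ^ S.card * ((q : ℝ) ^ S.card * q)))) :=
        mul_le_mul_of_nonneg_left key hr0
    _ ≤ r * ((Ca * B ^ (θ / m)) *
        ((Cb * B ^ ((r : ℝ) * r)) * ((Cc * B ^ δ) * ((q : ℝ) ^ S.card * q)))) := by
        gcongr
    _ = (r * (Ca * (Cb * (Cc * ((q : ℝ) ^ S.card * q))))) *
        (B ^ (θ / m) * B ^ ((r : ℝ) * r) * B ^ δ) := by ring
    _ = _ := by
        rw [← Real.rpow_add hB0, ← Real.rpow_add hB0]

end Pool.Agent.H990R4.VJ.Red
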